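import Mathlib

set_option autoImplicit false

/-!
Polynomials acting on sequences by the shift; sparse polynomials vanishing at an integer `b`.
-/

namespace Pool.Agent.Y413.DG

open Polynomial Finset

section act

variable {R : Type} [CommRing R]

/-- the shift on sequences -/
def sh (R : Type) [CommRing R] : Module.End R (ℕ → R) := LinearMap.funLeft R R Nat.succ

lemma sh_pow (j : ℕ) (u : ℕ → R) (t : ℕ) : (sh R ^ j) u t = u (j + t) := by
  induction j generalizing u t with
  | zero => simp
  | succ j ih =>
    rw [pow_succ, Module.End.mul_apply, ih]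
    change u (Nat.succ (j + t)) = _
    congr 1
    omega

/-- the polynomial `f = ∑ f_j X ^ j` acts on sequences by `(f u)_t = ∑ f_j u_{j + t}` -/
noncomputable def act (f : R[X]) (u : ℕ → R) : ℕ → R := aeval (sh R) f u

lemma act_apply (f : R[X]) (u : ℕ → R) (t : ℕ) :
    act f u t = ∑ j ∈ f.support, f.coeff j * u (j + t) := by
  unfold act
  rw [aeval_def, eval₂_eq_sum, Polynomial.sum, LinearMap.sum_apply, Finset.sum_apply]
  apply Finset.sum_congr rfl
  intro j _
  rw [← sh_pow j u t, Module.End.mul_apply, Module.algebraMap_end_apply]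
  rfl

lemma act_mul (f g : R[X]) (u : ℕ → R) : act (f * g) u = act f (act g u) := by
  unfold act
  rw [map_mul, Module.End.mul_apply]

lemma act_add (f g : R[X]) (u : ℕ → R) : act (f + g) u = act f u + act g u := by
  unfold act
  rw [map_add, LinearMap.add_apply]

lemma act_sub (f g : R[X]) (u : ℕ → R) : act (f - g) u = act f u - act g u := by
  unfold act
  rw [map_sub, LinearMap.sub_apply]

lemma act_add_right (f : R[X]) (u v : ℕ → R) : act f (u + v) = act f u + act f v := by
  unfold act
  rw [map_add]

lemma act_sub_right (f : R[X]) (u v : ℕ → R) : act f (u - v) = act f u - act f v := by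
  unfold act
  rw [map_sub]

lemma act_smul_right (f : R[X]) (c : R) (u : ℕ → R) : act f (c • u) = c • act f u := by
  unfold act
  rw [map_smul]

lemma act_sum_right {ι : Type} (f : R[X]) (s : Finset ι) (u : ι → ℕ → R) :
    act f (∑ i ∈ s, u i) = ∑ i ∈ s, act f (u i) := by
  unfold act
  rw [map_sum]

lemma act_X_pow (j : ℕ) (u : ℕ → R) (t : ℕ) : act (X ^ j) u t = u (j + t) := by
  unfold act
  rw [map_pow, aeval_X, sh_pow]

lemma act_X (u : ℕ → R) (t : ℕ) : act X u t = u (t + 1) := by
  have := act_X_pow 1 u t
  rw [pow_one] at this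
  rw [this, add_comm]

lemma act_C (c : R) (u : ℕ → R) (t : ℕ) : act (C c) u t = c * u t := by
  unfold act
  rw [aeval_C, Module.algebraMap_end_apply]
  rfl

lemma act_one (u : ℕ → R) : act (1 : R[X]) u = u := by
  unfold act
  rw [map_one]
  rfl

end act

/-- `f` is not divisible by `(X - b) ^ K` if it has at most `K` terms -/
lemma not_dvd (b : ℤ) (hb : b ≠ 0) (K : ℕ) : ∀ f : ℤ[X], f ≠ 0 → f.support.card ≤ K →
    ¬ (X - C b) ^ K ∣ f := by
  induction K with
  | zero =>
    intro f hf hc _
    apply hf
    rw [← Polynomial.support_eq_empty, ← Finset.card_eq_zero]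
    omega
  | succ K ih =>
    intro f hf hc hd
    obtain ⟨a, ha⟩ : f.support.Nonempty := Polynomial.support_nonempty.2 hf
    set g : ℤ[X] := X * derivative f - C (a : ℤ) * f with hg
    have hcoef : ∀ j, g.coeff j = ((j : ℤ) - a) * f.coeff j := by
      intro j
      rw [hg, coeff_sub, coeff_C_mul]
      cases j with
      | zero => simp
      | succ j =>
        rw [coeff_X_mul, coeff_derivative]
        push_cast
        ring
    have hgd : (X - C b) ^ K ∣ g := by
      rw [hg]
      apply dvd_sub
      · have := Polynomial.pow_sub_one_dvd_derivative_of_pow_dvd hd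
        rw [Nat.add_sub_cancel] at this
        exact this.mul_left _
      · exact ((pow_dvd_pow _ (Nat.le_succ K)).trans hd).mul_left _
    have hsupp : g.support ⊆ f.support.erase a := by
      intro j hj
      rw [mem_support_iff, hcoef] at hj
      rw [Finset.mem_erase, mem_support_iff]
      refine ⟨fun h => hj ?_, fun h => hj ?_⟩
      · rw [h, sub_self, zero_mul]
      · rw [h, mul_zero]
    have hcard : g.support.card ≤ K := by
      have h1 := Finset.card_le_card hsupp
      rw [Finset.card_erase_of_mem ha] at h1
      omega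
    by_cases hg0 : g = 0
    · -- then `f` is a monomial
      have hmono : f = monomial a (f.coeff a) := by
        ext j
        rw [coeff_monomial]
        split_ifs with h
        · rw [h]
        · have h1 := hcoef j
          rw [hg0, coeff_zero] at h1
          have h2 : ((j : ℤ) - a) ≠ 0 := by
            intro h3
            apply h
            omega
          exact (mul_eq_zero.1 h1.symm).resolve_left h2
      have h1 : f.eval b = 0 := by
        have h2 : (X - C b) ∣ f := (dvd_pow_self _ (Nat.succ_ne_zero K)).trans hd
        exact Polynomial.dvd_iff_isRoot.1 h2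
      rw [hmono, eval_monomial] at h1
      rcases mul_eq_zero.1 h1 with h2 | h2
      · exact (mem_support_iff.1 ha) h2
      · exact pow_ne_zero _ hb h2
    · exact ih g hg0 hcard hgd

/-- exact division of a sparse polynomial by `X - b` -/
lemma div_sparse (b : ℕ) (hb : 2 ≤ b) (B : ℕ) (f : ℤ[X]) (hB : ∀ j, |f.coeff j| ≤ B)
    (h0 : f.eval (b : ℤ) = 0) : ∃ g : ℤ[X], f = (X - C (b : ℤ)) * g ∧ (∀ j, |g.coeff j| ≤ B) ∧
      g.support.card ≤ f.support.card * (B + 1) ∧ g.natDegree ≤ f.natDegree := by
  classical
  obtain ⟨g, hg⟩ := Polynomial.dvd_iff_isRoot.2 h0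
  have hb' : (2 : ℤ) ≤ b := by exact_mod_cast hb
  have hc0 : f.coeff 0 = -(b * g.coeff 0) := by
    rw [hg, sub_mul, coeff_sub, coeff_X_mul_zero, coeff_C_mul]
    ring
  have hcs : ∀ j, f.coeff (j + 1) = g.coeff j - b * g.coeff (j + 1) := by
    intro j
    rw [hg, sub_mul, coeff_sub, coeff_X_mul, coeff_C_mul]
  have hgB : ∀ j, |g.coeff j| ≤ B := by
    intro j
    induction j with
    | zero =>
      have h1 := hB 0
      rw [hc0, abs_neg, abs_mul, abs_of_nonneg (by linarith : (0 : ℤ) ≤ b)] at h1
      have h2 := abs_nonneg (g.coeff 0)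
      nlinarith
    | succ j ih =>
      have h1 := hB (j + 1)
      have h2 : (b : ℤ) * g.coeff (j + 1) = g.coeff j - f.coeff (j + 1) := by rw [hcs]; ring
      have h3 : (b : ℤ) * |g.coeff (j + 1)| ≤ B + B := by
        calc (b : ℤ) * |g.coeff (j + 1)| = |(b : ℤ) * g.coeff (j + 1)| := by
              rw [abs_mul, abs_of_nonneg (by linarith : (0 : ℤ) ≤ b)]
          _ = |g.coeff j - f.coeff (j + 1)| := by rw [h2]
          _ ≤ |g.coeff j| + |f.coeff (j + 1)| := abs_sub _ _
          _ ≤ B + B := add_le_add ih h1
      have h4 := abs_nonneg (g.coeff (j + 1))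
      nlinarith
  refine ⟨g, hg, hgB, ?_, ?_⟩
  · -- the support
    have hsub : g.support ⊆ (f.support ×ˢ range (B + 1)).image (fun p => p.1 + p.2) := by
      intro j hj
      rw [mem_support_iff] at hj
      by_contra hcon
      have hz : ∀ e, e ≤ B → e ≤ j → f.coeff (j - e) = 0 := by
        intro e he hej
        by_contra hne
        apply hcon
        rw [Finset.mem_image]
        refine ⟨(j - e, e), ?_, by simp; omega⟩
        rw [Finset.mem_product, mem_support_iff, mem_range]
        exact ⟨hne, by simp; omega⟩
      -- going down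
      have hdown : ∀ e, e ≤ B + 1 → e ≤ j → g.coeff (j - e) = (b : ℤ) ^ e * g.coeff j := by
        intro e
        induction e with
        | zero => intro _ _; simp
        | succ e ih =>
          intro he hej
          have h1 := ih (by omega) (by omega)
          have h2 := hz e (by omega) (by omega)
          have h3 := hcs (j - (e + 1))
          have h4 : j - (e + 1) + 1 = j - e := by omega
          rw [h4, h2, h1] at h3
          rw [pow_succ]
          linarith
      by_cases hj2 : j ≤ B
      · have h1 := hdown j (by omega) le_rfl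
        have h2 := hz j hj2 le_rfl
        rw [Nat.sub_self] at h1 h2
        rw [hc0, h1] at h2
        have h3 : (b : ℤ) ^ j ≠ 0 := pow_ne_zero _ (by linarith)
        have h4 : (b : ℤ) * ((b : ℤ) ^ j * g.coeff j) = 0 := by linarith
        rcases mul_eq_zero.1 h4 with h5 | h5
        · linarith
        · rcases mul_eq_zero.1 h5 with h6 | h6
          · exact h3 h6
          · exact hj h6
      · have h1 := hdown (B + 1) le_rfl (by omega)
        have h2 := hgB (j - (B + 1))
        rw [h1, abs_mul, abs_of_nonneg (by positivity)] at h2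
        have h3 : 1 ≤ |g.coeff j| := Int.one_le_abs hj
        have h4 : (B : ℤ) < (b : ℤ) ^ (B + 1) := by
          have h5 : B + 1 < 2 ^ (B + 1) := Nat.lt_two_pow_self
          have h6 : 2 ^ (B + 1) ≤ b ^ (B + 1) := Nat.pow_le_pow_left hb _
          have h7 : B < b ^ (B + 1) := by omega
          exact_mod_cast h7
        nlinarith
    calc g.support.card ≤ _ := Finset.card_le_card hsub
      _ ≤ (f.support ×ˢ range (B + 1)).card := Finset.card_image_le
      _ = f.support.card * (B + 1) := by rw [Finset.card_product, card_range]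
  · by_cases hg0 : g = 0
    · rw [hg0, natDegree_zero]
      exact Nat.zero_le _
    · rw [hg, natDegree_mul (X_sub_C_ne_zero _) hg0]
      omega

end Pool.Agent.Y413.DG
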