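import Pool.Agent.Y413.DG.Rel

set_option autoImplicit false

/-!
Blocks of digits of algebraic numbers: linear independence.
-/

namespace Pool.Agent.Y413.DG

open Polynomial Finset Filter Topology

/-- integer relations, induction on the order of vanishing at `b` -/
lemma int_rel (b : ℕ) (hb : 2 ≤ b) {r : ℕ} (α : Fin r → ℝ) (hα : ∀ k, IsAlgebraic ℚ (α k))
    (hind : Indep α) (d : Fin r → ℕ → ℤ) (B : ℕ) (hB : ∀ s t, |d s t| ≤ B)
    (hd : ∀ s, Exp b (α s) (d s)) (e : ℕ) : ∀ T B' C0 : ℕ, ∃ m0 : ℕ, ∀ m, m0 ≤ m →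
      ∀ f : Fin r → ℤ[X],
      (∀ s, (f s).support.card ≤ T) → (∀ s j, |(f s).coeff j| ≤ B') →
      (∀ s, (f s).natDegree ≤ C0 * m) → (∃ s, ¬ (X - C (b : ℤ)) ^ e ∣ f s) →
      (∀ t, t < m → ∑ s, act (f s) (d s) t = 0) → False := by
  have hb0 : (2 : ℤ) ≤ b := by exact_mod_cast hb
  induction e with
  | zero =>
    intro T B' C0
    refine ⟨0, fun m _ f _ _ _ hs _ => ?_⟩
    obtain ⟨s, hs⟩ := hs
    apply hs
    rw [pow_zero]
    exact one_dvd _
  | succ e ih =>
    intro T B' C0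
    obtain ⟨m1, hm1⟩ := ok_poly b hb α hα hind d B hB hd T B' C0
    obtain ⟨m2, hm2⟩ := ih (T * (B' + 1)) B' (2 * C0)
    set H : ℕ := r * (T * (B' + 1)) * (B' * B) with hH
    refine ⟨max m1 (m2 + 2 * H), fun m hm f hfT hfB hfd hs hrel => ?_⟩
    have h1 : m1 ≤ m := (le_max_left _ _).trans hm
    have h2 : m2 + 2 * H ≤ m := (le_max_right _ _).trans hm
    by_cases hev : ∃ s, (f s).eval (b : ℤ) ≠ 0
    · exact hm1 m h1 f hfT hfB hfd hev hrel
    push Not at hev
    choose g hg hgB hgT hgd using fun s => div_sparse b hb B' (f s) (hfB s) (hev s)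
    have hgT' : ∀ s, (g s).support.card ≤ T * (B' + 1) := fun s =>
      (hgT s).trans (Nat.mul_le_mul_right _ (hfT s))
    set h : ℕ → ℤ := fun t => ∑ s, act (g s) (d s) t with hh
    have hstep : ∀ t, t < m → h (t + 1) = b * h t := by
      intro t ht
      have h3 := hrel t ht
      have h4 : ∑ s, act (f s) (d s) t = h (t + 1) - b * h t := by
        rw [hh, Finset.mul_sum, ← Finset.sum_sub_distrib]
        apply Finset.sum_congr rfl
        intro s _
        rw [hg s, act_mul, act_sub, Pi.sub_apply, act_X, act_C]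
      rw [h4] at h3
      linarith
    have hbd : ∀ t, |h t| ≤ H := by
      intro t
      calc |h t| ≤ ∑ s, ∑ j ∈ (g s).support, (B' * B : ℤ) := by
            refine (Finset.abs_sum_le_sum_abs _ _).trans (Finset.sum_le_sum fun s _ => ?_)
            rw [act_apply]
            refine (Finset.abs_sum_le_sum_abs _ _).trans (Finset.sum_le_sum fun j _ => ?_)
            rw [abs_mul]
            exact mul_le_mul (hgB s j) (hB _ _) (abs_nonneg _) (by positivity)
        _ ≤ ∑ _s : Fin r, (((T * (B' + 1) : ℕ) : ℤ) * (B' * B)) := by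
            apply Finset.sum_le_sum
            intro s _
            rw [Finset.sum_const, nsmul_eq_mul]
            apply mul_le_mul_of_nonneg_right _ (by positivity)
            exact_mod_cast hgT' s
        _ = H := by
            rw [Finset.sum_const, Finset.card_univ, Fintype.card_fin, nsmul_eq_mul, hH]
            push_cast
            ring
    have hpow : ∀ u t, t + u ≤ m → h (t + u) = (b : ℤ) ^ u * h t := by
      intro u
      induction u with
      | zero => intro t _; simp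
      | succ u ihu =>
        intro t ht
        rw [← add_assoc, hstep (t + u) (by omega), ihu t (by omega), pow_succ]
        ring
    have hz : ∀ t, t < m - H → h t = 0 := by
      intro t ht
      by_contra hne
      have h3 := hpow H t (by omega)
      have h4 := hbd (t + H)
      rw [h3, abs_mul, abs_of_nonneg (by positivity)] at h4
      have h5 : 1 ≤ |h t| := Int.one_le_abs hne
      have h6 : (H : ℤ) < (b : ℤ) ^ H := by
        have h7 : H < 2 ^ H := Nat.lt_two_pow_self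
        have h8 : 2 ^ H ≤ b ^ H := Nat.pow_le_pow_left hb _
        exact_mod_cast lt_of_lt_of_le h7 h8
      have h7 : (b : ℤ) ^ H * 1 ≤ (b : ℤ) ^ H * |h t| := mul_le_mul_of_nonneg_left h5 (by positivity)
      linarith
    refine hm2 (m - H) (by omega) g hgT' hgB (fun s => ?_) ?_ hz
    · calc (g s).natDegree ≤ (f s).natDegree := hgd s
        _ ≤ C0 * m := hfd s
        _ ≤ C0 * (2 * (m - H)) := Nat.mul_le_mul_left _ (by omega)
        _ = 2 * C0 * (m - H) := by ring
    · obtain ⟨s, hs⟩ := hs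
      refine ⟨s, fun hdiv => hs ?_⟩
      rw [hg s, pow_succ']
      exact mul_dvd_mul_left _ hdiv

/-- integer relations -/
lemma int_rel' (b : ℕ) (hb : 2 ≤ b) {r : ℕ} (α : Fin r → ℝ) (hα : ∀ k, IsAlgebraic ℚ (α k))
    (hind : Indep α) (d : Fin r → ℕ → ℤ) (B : ℕ) (hB : ∀ s t, |d s t| ≤ B)
    (hd : ∀ s, Exp b (α s) (d s)) (T B' C : ℕ) : ∃ m0 : ℕ, ∀ m, m0 ≤ m →
      ∀ f : Fin r → ℤ[X],
      (∀ s, (f s).support.card ≤ T) → (∀ s j, |(f s).coeff j| ≤ B') →
      (∀ s, (f s).natDegree ≤ C * m) → f ≠ 0 →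
      (∀ t, t < m → ∑ s, act (f s) (d s) t = 0) → False := by
  obtain ⟨m0, hm0⟩ := int_rel b hb α hα hind d B hB hd T T B' C
  refine ⟨m0, fun m hm f hfT hfB hfd hf hrel => hm0 m hm f hfT hfB hfd ?_ hrel⟩
  obtain ⟨s, hs⟩ := Function.ne_iff.1 hf
  exact ⟨s, not_dvd b (by exact_mod_cast (by omega : b ≠ 0)) T (f s) hs (hfT s)⟩

/-- a real relation gives an integer relation -/
lemma int_of_real {ι : Type} [Fintype ι] (U : Set (ι → ℤ)) (c : ι → ℝ) (hc : c ≠ 0)
    (h : ∀ v ∈ U, ∑ l, c l * v l = 0) :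
    ∃ c' : ι → ℤ, c' ≠ 0 ∧ ∀ v ∈ U, ∑ l, c' l * v l = 0 := by
  classical
  obtain ⟨l0, hl0⟩ := Function.ne_iff.1 hc
  obtain ⟨φ, hφ⟩ : ∃ φ : Module.Dual ℚ ℝ, φ (c l0) ≠ 0 := by
    by_contra hcon
    push Not at hcon
    exact hl0 ((Module.forall_dual_apply_eq_zero_iff ℚ (c l0)).1 hcon)
  -- a common denominator
  obtain ⟨D, hD0, hD⟩ : ∃ D : ℕ, D ≠ 0 ∧ ∀ l, ∃ z : ℤ, (D : ℚ) * φ (c l) = z := by
    refine ⟨∏ l, (φ (c l)).den, Finset.prod_ne_zero_iff.2 fun l _ => (φ (c l)).den_nz, fun l => ?_⟩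
    refine ⟨(∏ k ∈ univ.erase l, (φ (c k)).den : ℕ) * (φ (c l)).num, ?_⟩
    rw [← Finset.prod_erase_mul univ _ (mem_univ l)]
    push_cast
    rw [mul_assoc, Rat.den_mul_eq_num]
  choose z hz using hD
  refine ⟨z, ?_, fun v hv => ?_⟩
  · intro h0
    have h1 := hz l0
    rw [h0, Pi.zero_apply, Int.cast_zero] at h1
    rcases mul_eq_zero.1 h1 with h2 | h2
    · exact hD0 (by exact_mod_cast h2)
    · exact hφ h2
  · have h1 : φ (∑ l, c l * v l) = ∑ l, φ (c l) * v l := by
      rw [map_sum]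
      apply Finset.sum_congr rfl
      intro l _
      have h2 : c l * (v l : ℝ) = (v l : ℚ) • c l := by
        rw [Rat.smul_def]
        push_cast
        ring
      rw [h2, map_smul, smul_eq_mul, mul_comm]
    rw [h v hv, map_zero] at h1
    have h2 : ((∑ l, z l * v l : ℤ) : ℚ) = 0 := by
      push_cast
      calc ∑ l, (z l : ℚ) * v l = ∑ l, (D : ℚ) * φ (c l) * v l := by
            apply Finset.sum_congr rfl
            intro l _
            rw [hz l]
        _ = D * ∑ l, φ (c l) * v l := by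
            rw [Finset.mul_sum]
            apply Finset.sum_congr rfl
            intro l _
            ring
        _ = 0 := by rw [← h1, mul_zero]
    exact_mod_cast h2

/-- with a bound -/
lemma int_of_real_bd (q B : ℕ) : ∃ B' : ℕ, ∀ (U : Set (Fin q → ℤ)),
    (∀ v ∈ U, ∀ l, |v l| ≤ B) → (∃ c : Fin q → ℝ, c ≠ 0 ∧ ∀ v ∈ U, ∑ l, c l * v l = 0) →
    ∃ c' : Fin q → ℤ, c' ≠ 0 ∧ (∀ l, |c' l| ≤ B') ∧ ∀ v ∈ U, ∑ l, c' l * v l = 0 := by
  classical
  set F : Finset (Fin q → ℤ) := Fintype.piFinset fun _ => Finset.Icc (-(B : ℤ)) B with hF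
  have h1 : ∀ U' : Finset (Fin q → ℤ), ∃ B' : ℕ,
      (∃ c : Fin q → ℝ, c ≠ 0 ∧ ∀ v ∈ U', ∑ l, c l * v l = 0) →
      ∃ c' : Fin q → ℤ, c' ≠ 0 ∧ (∀ l, |c' l| ≤ B') ∧ ∀ v ∈ U', ∑ l, c' l * v l = 0 := by
    intro U'
    by_cases h : ∃ c : Fin q → ℝ, c ≠ 0 ∧ ∀ v ∈ U', ∑ l, c l * v l = 0
    · obtain ⟨c, hc, hc'⟩ := h
      obtain ⟨c', h1, h2⟩ := int_of_real (U' : Set (Fin q → ℤ)) c hc (fun v hv => hc' v hv)
      refine ⟨∑ l, (c' l).natAbs, fun _ => ⟨c', h1, fun l => ?_, fun v hv => h2 v hv⟩⟩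
      have h3 : (c' l).natAbs ≤ ∑ l, (c' l).natAbs :=
        Finset.single_le_sum (f := fun l => (c' l).natAbs) (fun _ _ => Nat.zero_le _) (mem_univ l)
      rw [Int.abs_eq_natAbs]
      exact_mod_cast h3
    · exact ⟨0, fun h' => absurd h' h⟩
  choose G hG using h1
  refine ⟨F.powerset.sup G, fun U hU hc => ?_⟩
  set U' := F.filter (fun v => v ∈ U) with hU'
  have hmem : ∀ v, v ∈ U' ↔ v ∈ U := by
    intro v
    rw [hU', mem_filter]
    refine ⟨fun h => h.2, fun h => ⟨?_, h⟩⟩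
    rw [hF, Fintype.mem_piFinset]
    intro l
    rw [Finset.mem_Icc]
    exact abs_le.1 (hU v h l)
  obtain ⟨c, hc0, hc⟩ := hc
  obtain ⟨c', h1, h2, h3⟩ := hG U' ⟨c, hc0, fun v hv => hc v ((hmem v).1 hv)⟩
  refine ⟨c', h1, fun l => (h2 l).trans ?_, fun v hv => h3 v ((hmem v).2 hv)⟩
  have h4 : G U' ≤ F.powerset.sup G := Finset.le_sup (Finset.mem_powerset.2 (Finset.filter_subset _ _))
  exact_mod_cast h4

/-- the terms of a family of polynomials -/
abbrev Idx {r : ℕ} (f : Fin r → ℝ[X]) := (s : Fin r) × (f s).support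

/-- real relations -/
lemma real_rel (b : ℕ) (hb : 2 ≤ b) {r : ℕ} (α : Fin r → ℝ) (hα : ∀ k, IsAlgebraic ℚ (α k))
    (hind : Indep α) (d : Fin r → ℕ → ℤ) (B : ℕ) (hB : ∀ s t, |d s t| ≤ B)
    (hd : ∀ s, Exp b (α s) (d s)) (T C : ℕ) : ∃ m0 : ℕ, ∀ m, m0 ≤ m →
      ∀ f : Fin r → ℝ[X],
      (∀ s, (f s).support.card ≤ T) → (∀ s, (f s).natDegree ≤ C * m) → f ≠ 0 →
      (∀ t, t < m → ∑ s, act (f s) (fun t => (d s t : ℝ)) t = 0) → False := by
  classical
  choose B' hB' using fun q => int_of_real_bd q B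
  set B1 := (range (r * T + 1)).sup B' with hB1
  obtain ⟨m0, hm0⟩ := int_rel' b hb α hα hind d B hB hd T B1 C
  refine ⟨m0, fun m hm f hfT hfd hf hrel => ?_⟩
  have hqle : Fintype.card (Idx f) ≤ r * T := by
    rw [Fintype.card_sigma]
    calc ∑ s, Fintype.card (f s).support ≤ ∑ _s : Fin r, T := by
          apply Finset.sum_le_sum
          intro s _
          rw [Fintype.card_coe]
          exact hfT s
      _ = r * T := by simp
  obtain ⟨q, hq⟩ : ∃ q, q = Fintype.card (Idx f) := ⟨_, rfl⟩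
  have e : Fin q ≃ Idx f := (Fintype.equivFinOfCardEq hq.symm).symm
  set D : ℕ → Idx f → ℤ := fun t p => d p.1 (p.2 + t) with hD
  set F : Idx f → ℝ := fun p => (f p.1).coeff p.2 with hF
  set V : ℕ → Fin q → ℤ := fun t l => D t (e l) with hV
  obtain ⟨c', h1, h2, h3⟩ := hB' q (V '' {t | t < m}) (by
      rintro v ⟨t, _, rfl⟩ l
      exact hB _ _) (by
      refine ⟨fun l => F (e l), ?_, ?_⟩
      · obtain ⟨s, hs⟩ := Function.ne_iff.1 hf
        obtain ⟨j, hj⟩ := Polynomial.support_nonempty.2 hs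
        intro h0
        have h1 := congrFun h0 (e.symm ⟨s, ⟨j, hj⟩⟩)
        simp only [Equiv.apply_symm_apply, Pi.zero_apply] at h1
        exact (mem_support_iff.1 hj) h1
      · rintro v ⟨t, ht, rfl⟩
        have h1 := hrel t ht
        rw [← h1]
        have h4 : ∑ l, F (e l) * (V t l : ℝ) = ∑ p : Idx f, F p * (D t p : ℝ) :=
          Equiv.sum_comp e (fun p => F p * (D t p : ℝ))
        rw [h4, Fintype.sum_sigma]
        apply Finset.sum_congr rfl
        intro s _
        rw [act_apply]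
        exact Finset.sum_coe_sort (f s).support
          (fun j => (f s).coeff j * ((d s (j + t) : ℤ) : ℝ)))
  set a : Fin r → ℕ → ℤ := fun s j => if hj : j ∈ (f s).support then c' (e.symm ⟨s, ⟨j, hj⟩⟩) else 0
    with ha
  set g : Fin r → ℤ[X] := fun s => ∑ j ∈ (f s).support, monomial j (a s j) with hg
  have ha1 : ∀ s j, ∀ hj : j ∈ (f s).support, a s j = c' (e.symm ⟨s, ⟨j, hj⟩⟩) := by
    intro s j hj
    rw [ha]
    exact dif_pos hj
  have ha0 : ∀ s j, j ∉ (f s).support → a s j = 0 := by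
    intro s j hj
    rw [ha]
    exact dif_neg hj
  have hgc : ∀ s j, (g s).coeff j = a s j := by
    intro s j
    rw [hg]
    simp only [finsetSum_coeff, coeff_monomial, Finset.sum_ite_eq']
    split_ifs with h
    · rfl
    · rw [ha0 s j h]
  have hgs : ∀ s, (g s).support ⊆ (f s).support := by
    intro s j hj
    rw [Polynomial.mem_support_iff, hgc] at hj
    by_contra h
    exact hj (ha0 s j h)
  have hB1' : B' q ≤ B1 := Finset.le_sup (mem_range.2 (by omega))
  refine hm0 m hm g (fun s => (Finset.card_le_card (hgs s)).trans (hfT s)) ?_ ?_ ?_ ?_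
  · intro s j
    rw [hgc]
    by_cases h : j ∈ (f s).support
    · rw [ha1 s j h]
      exact (h2 _).trans (by exact_mod_cast hB1')
    · rw [ha0 s j h, abs_zero]; positivity
  · intro s
    refine le_trans ?_ (hfd s)
    rw [Polynomial.natDegree_le_iff_coeff_eq_zero]
    intro j hj
    by_contra hne
    have := hgs s (Polynomial.mem_support_iff.2 hne)
    have := Polynomial.le_natDegree_of_mem_supp _ this
    omega
  · intro h0
    apply h1
    funext l
    obtain ⟨p, rfl⟩ := e.symm.surjective l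
    obtain ⟨s, j, hj⟩ := p
    have h5 := hgc s j
    rw [h0, Pi.zero_apply, coeff_zero, ha1 s j hj] at h5
    rw [← h5]
    rfl
  · intro t ht
    have h4 := h3 (V t) ⟨t, ht, rfl⟩
    rw [← h4]
    have h6 : ∑ l, c' l * V t l = ∑ p : Idx f, c' (e.symm p) * D t p := by
      rw [← Equiv.sum_comp e (fun p => c' (e.symm p) * D t p)]
      apply Finset.sum_congr rfl
      intro l _
      rw [Equiv.symm_apply_apply]
    rw [h6, Fintype.sum_sigma]
    apply Finset.sum_congr rfl
    intro s _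
    rw [act_apply]
    have h5 : ∑ j ∈ (g s).support, (g s).coeff j * d s (j + t) =
        ∑ j ∈ (f s).support, a s j * d s (j + t) := by
      rw [← Finset.sum_subset (hgs s)]
      · apply Finset.sum_congr rfl
        intro j _
        rw [hgc]
      · intro j _ hj
        rw [← hgc, Polynomial.notMem_support_iff.1 hj, zero_mul]
    rw [h5, ← Finset.sum_coe_sort (f s).support (fun j => a s j * d s (j + t))]
    apply Finset.sum_congr rfl
    intro j _
    rw [ha1 s j j.2]

end Pool.Agent.Y413.DG
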