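import Pool.Agent.Y413.DG.Flt

set_option autoImplicit false

/-!
The theorems for digits, with explicit places.
-/

namespace Pool.Agent.Y413.DG

open Polynomial Finset Filter Topology

/-- the digits after the point -/
noncomputable def dg (b : ℕ) (x : ℝ) (t : ℕ) : ℤ := ⌊x * (b : ℝ) ^ (t + 1)⌋ % (b : ℤ)

lemma exp_dg (b : ℕ) (hb : 2 ≤ b) (x : ℝ) : Exp b (Int.fract x) (dg b x) := by
  unfold Exp
  have hb0 : (0 : ℝ) < b := by exact_mod_cast (by omega : 0 < b)
  have hb1 : (1 : ℝ) < b := by exact_mod_cast (by omega : 1 < b)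
  have hnn : ∀ t, 0 ≤ (dg b x t : ℝ) / (b : ℝ) ^ (t + 1) := by
    intro t
    apply div_nonneg _ (by positivity)
    exact_mod_cast (dig_bound hb x (t + 1)).1
  rw [hasSum_iff_tendsto_nat_of_nonneg hnn]
  have h1 : ∀ n : ℕ, ∑ t ∈ range n, (dg b x t : ℝ) / (b : ℝ) ^ (t + 1) =
      Int.fract x - (b : ℝ)⁻¹ ^ n * fr b x n := by
    intro n
    have h2 := fr_sum hb x 0 n
    have h3 : fr b x 0 = Int.fract x := by unfold fr; rw [pow_zero, mul_one]
    rw [h3, zero_add] at h2
    rw [h2]
    have h4 : (b : ℝ) ^ (-(n : ℤ)) = (b : ℝ)⁻¹ ^ n := by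
      rw [zpow_neg, zpow_natCast, inv_pow]
    rw [h4, add_sub_cancel_right]
    apply Finset.sum_congr rfl
    intro t _
    rw [zero_add, zpow_neg, div_eq_mul_inv]
    congr 2
  have h2 : Tendsto (fun n : ℕ => Int.fract x - (b : ℝ)⁻¹ ^ n * fr b x n) atTop
      (𝓝 (Int.fract x - 0)) := by
    apply Tendsto.sub tendsto_const_nhds
    apply squeeze_zero (g := fun n : ℕ => (b : ℝ)⁻¹ ^ n)
    · intro n
      exact mul_nonneg (by positivity) (fr_nonneg _ _ _)
    · intro n
      exact mul_le_of_le_one_right (by positivity) (fr_lt _ _ _).le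
    · exact tendsto_pow_atTop_nhds_zero_of_lt_one (by positivity) (inv_lt_one_of_one_lt₀ hb1)
  rw [sub_zero] at h2
  exact h2.congr fun n => (h1 n).symm

lemma dg_bound (b : ℕ) (hb : 2 ≤ b) (x : ℝ) (t : ℕ) : |dg b x t| ≤ b := by
  have h := dig_bound hb x (t + 1)
  rw [abs_le]
  constructor
  · exact le_trans (by linarith [(Nat.cast_nonneg b : (0 : ℤ) ≤ b)]) h.1
  · exact h.2.le

/-- linear independence over `ℚ` in the form used in the library -/
lemma indep_of {r : ℕ} (α : Fin r → ℝ) (h : LinearIndependent ℚ (Matrix.vecCons (1 : ℝ) α)) :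
    Indep α := by
  intro x y hxy
  rw [Fintype.linearIndependent_iff] at h
  have h1 := h (Matrix.vecCons (y : ℚ) (fun k => (x k : ℚ))) (by
    rw [Fin.sum_univ_succ]
    simp only [Matrix.cons_val_zero, Matrix.cons_val_succ, Rat.smul_def]
    push_cast
    linarith)
  funext k
  have h2 := h1 k.succ
  rw [Matrix.cons_val_succ] at h2
  exact_mod_cast h2

lemma indep_fract {r : ℕ} {α : Fin r → ℝ} (h : Indep α) : Indep (fun k => Int.fract (α k)) := by
  intro x y hxy
  apply h x (y - ∑ k, x k * ⌊α k⌋)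
  rw [← hxy]
  push_cast
  have h1 : ∀ k, (x k : ℝ) * Int.fract (α k) = x k * α k - x k * ⌊α k⌋ := by
    intro k
    rw [← mul_sub]
    rfl
  simp only [h1, Finset.sum_sub_distrib]
  ring

lemma indep_one {x : ℝ} (hx : Irrational x) : Indep (fun _ : Fin 1 => x) := by
  intro a y h
  rw [Fin.sum_univ_one] at h
  funext k
  fin_cases k
  by_contra hne
  have h0 : a 0 ≠ 0 := hne
  apply hx
  refine ⟨-(y : ℚ) / (a 0 : ℚ), ?_⟩
  push_cast
  have h1 : (a 0 : ℝ) ≠ 0 := by exact_mod_cast h0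
  field_simp
  linarith

lemma alg_fract {x : ℝ} (hx : IsAlgebraic ℚ x) : IsAlgebraic ℚ (Int.fract x) := by
  have h1 : Int.fract x = x - algebraMap ℚ ℝ (⌊x⌋ : ℚ) := by
    rw [eq_ratCast, Rat.cast_intCast]
    rfl
  rw [h1]
  exact hx.sub (isAlgebraic_algebraMap _)

lemma act_sum_left {ι : Type} {R : Type} [CommRing R] (s : Finset ι) (f : ι → R[X]) (u : ℕ → R) :
    act (∑ i ∈ s, f i) u = ∑ i ∈ s, act (f i) u := by
  unfold act
  rw [map_sum, LinearMap.sum_apply]

lemma act_monomial {R : Type} [CommRing R] (j : ℕ) (a : R) (u : ℕ → R) (t : ℕ) :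
    act (monomial j a) u t = a * u (j + t) := by
  rw [← C_mul_X_pow_eq_monomial, act_mul, act_C, act_X_pow]

/-- explicit places -/
lemma toPoly {r T : ℕ} (a : Fin T → ℝ) (σ : Fin T → Fin r) (s : Fin T → ℕ)
    (hinj : Function.Injective fun l => (σ l, s l)) (ha : a ≠ 0) (M : ℕ) (hs : ∀ l, s l ≤ M) :
    ∃ f : Fin r → ℝ[X], f ≠ 0 ∧ (∀ k, (f k).support.card ≤ T) ∧ (∀ k, (f k).natDegree ≤ M) ∧
      ∀ d : Fin r → ℕ → ℝ, ∑ k, act (f k) (d k) = fun t => ∑ l, a l * d (σ l) (s l + t) := by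
  classical
  set f : Fin r → ℝ[X] := fun k => ∑ l ∈ univ.filter (fun l => σ l = k), monomial (s l) (a l)
    with hf
  have hco : ∀ k j, (f k).coeff j = ∑ l ∈ univ.filter (fun l => σ l = k),
      if s l = j then a l else 0 := by
    intro k j
    rw [hf]
    simp only [finsetSum_coeff, coeff_monomial]
  have hsup : ∀ k, (f k).support ⊆ univ.image s := by
    intro k j hj
    rw [Polynomial.mem_support_iff, hco] at hj
    obtain ⟨l, _, hl⟩ := Finset.exists_ne_zero_of_sum_ne_zero hj
    rw [Finset.mem_image]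
    refine ⟨l, mem_univ _, ?_⟩
    by_contra h
    exact hl (if_neg h)
  refine ⟨f, ?_, ?_, ?_, ?_⟩
  · obtain ⟨l0, hl0⟩ := Function.ne_iff.1 ha
    intro h0
    have h1 := hco (σ l0) (s l0)
    rw [h0, Pi.zero_apply, coeff_zero, Finset.sum_eq_single l0] at h1
    · rw [if_pos rfl] at h1
      exact hl0 h1.symm
    · intro l hl hne
      rw [mem_filter] at hl
      apply if_neg
      intro h
      exact hne (hinj (Prod.ext hl.2 h))
    · intro h
      exfalso
      apply h
      rw [mem_filter]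
      exact ⟨mem_univ _, rfl⟩
  · intro k
    refine (Finset.card_le_card (hsup k)).trans (Finset.card_image_le.trans ?_)
    rw [Finset.card_univ, Fintype.card_fin]
  · intro k
    rw [Polynomial.natDegree_le_iff_coeff_eq_zero]
    intro j hj
    by_contra hne
    have h1 := hsup k (Polynomial.mem_support_iff.2 hne)
    rw [Finset.mem_image] at h1
    obtain ⟨l, _, hl⟩ := h1
    have := hs l
    omega
  · intro d
    funext t
    rw [Finset.sum_apply]
    have h1 : ∀ k, act (f k) (d k) t = ∑ l ∈ univ.filter (fun l => σ l = k), a l * d (σ l) (s l + t) := by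
      intro k
      rw [hf]
      simp only
      rw [act_sum_left, Finset.sum_apply]
      apply Finset.sum_congr rfl
      intro l hl
      rw [mem_filter] at hl
      rw [act_monomial, hl.2]
    simp only [h1]
    rw [Finset.sum_fiberwise]

/-- Hamming distance in terms of `nz` -/
lemma nz_fin (n : ℕ) (u : ℕ → ℝ) [DecidablePred fun t : Fin n => u t ≠ 0] :
    nz n u = (univ.filter fun t : Fin n => u t ≠ 0).card := by
  classical
  rw [nz_def]
  symm
  apply Finset.card_bij (fun (t : Fin n) _ => (t : ℕ))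
  · intro t ht
    rw [mem_filter] at ht ⊢
    exact ⟨mem_range.2 t.2, ht.2⟩
  · intro t _ t' _ h
    exact Fin.ext h
  · intro t ht
    rw [mem_filter, mem_range] at ht
    exact ⟨⟨t, ht.1⟩, mem_filter.2 ⟨mem_univ _, ht.2⟩, rfl⟩

end Pool.Agent.Y413.DG
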