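import Pool.Agent.Y413.DG.Blk

set_option autoImplicit false

/-!
Blocks of digits, few exceptions allowed; Beatty sequences.
-/

namespace Pool.Agent.Y413.DG

open Polynomial Finset Filter Topology

/-- the number of `t < n` with `u t ≠ 0` -/
noncomputable def nz (n : ℕ) (u : ℕ → ℝ) : ℕ := by
  classical exact ((range n).filter (fun t => u t ≠ 0)).card

lemma nz_def (n : ℕ) (u : ℕ → ℝ) [DecidablePred fun t => u t ≠ 0] :
    nz n u = ((range n).filter (fun t => u t ≠ 0)).card := by
  unfold nz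
  congr!

lemma nz_mono {n m : ℕ} (h : n ≤ m) (u : ℕ → ℝ) : nz n u ≤ nz m u := by
  classical
  rw [nz_def, nz_def]
  exact Finset.card_le_card (Finset.filter_subset_filter _ (Finset.range_mono h))

lemma nz_of_imp {n : ℕ} {u v : ℕ → ℝ} (h : ∀ t, t < n → u t ≠ 0 → v t ≠ 0) : nz n u ≤ nz n v := by
  classical
  rw [nz_def, nz_def]
  apply Finset.card_le_card
  intro t ht
  rw [mem_filter, mem_range] at ht ⊢
  exact ⟨ht.1, h t ht.1 ht.2⟩

lemma nz_add (n : ℕ) (u v : ℕ → ℝ) : nz n (u + v) ≤ nz n u + nz n v := by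
  classical
  rw [nz_def, nz_def, nz_def]
  refine le_trans (Finset.card_le_card ?_) (Finset.card_union_le _ _)
  intro t ht
  rw [mem_filter] at ht
  rw [mem_union, mem_filter, mem_filter]
  by_contra hc
  push Not at hc
  apply ht.2
  rw [Pi.add_apply]
  rw [hc.1 ht.1, hc.2 ht.1, add_zero]

lemma nz_sum {ι : Type} (n : ℕ) (s : Finset ι) (u : ι → ℕ → ℝ) :
    nz n (∑ i ∈ s, u i) ≤ ∑ i ∈ s, nz n (u i) := by
  classical
  induction s using Finset.induction_on with
  | empty =>
    rw [Finset.sum_empty, Finset.sum_empty, nz_def]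
    simp
  | insert a s ha ih =>
    rw [Finset.sum_insert ha, Finset.sum_insert ha]
    exact (nz_add _ _ _).trans (Nat.add_le_add_left ih _)

lemma nz_shift (n j : ℕ) (u : ℕ → ℝ) : nz n (fun t => u (j + t)) ≤ nz (n + j) u := by
  classical
  rw [nz_def, nz_def]
  apply Finset.card_le_card_of_injOn (fun t => j + t)
  · intro t ht
    rw [Finset.mem_coe, mem_filter, mem_range] at ht ⊢
    exact ⟨by simp only; omega, ht.2⟩
  · intro a _ b _ h
    simpa using h

lemma nz_act (n : ℕ) (P : ℝ[X]) (u : ℕ → ℝ) :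
    nz n (act P u) ≤ P.support.card * nz (n + P.natDegree) u := by
  have h1 : act P u = ∑ j ∈ P.support, (fun t => P.coeff j * u (j + t)) := by
    funext t
    rw [act_apply, Finset.sum_apply]
  rw [h1]
  refine (nz_sum _ _ _).trans ?_
  rw [← smul_eq_mul, ← Finset.sum_const]
  apply Finset.sum_le_sum
  intro j hj
  have h2 := Polynomial.le_natDegree_of_mem_supp _ hj
  refine (nz_of_imp (v := fun t => u (j + t)) ?_).trans
    ((nz_shift n j u).trans (nz_mono (by omega) u))
  intro t _ h h0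
  exact h (by rw [h0, mul_zero])

lemma act_X_pow_sub (i j : ℕ) (u : ℕ → ℝ) (t : ℕ) :
    act (X ^ j - X ^ i : ℝ[X]) u t = u (j + t) - u (i + t) := by
  rw [act_sub, Pi.sub_apply, act_X_pow, act_X_pow]

lemma act_X_pow_sub_one (q : ℕ) (u : ℕ → ℝ) (t : ℕ) :
    act (X ^ q - 1 : ℝ[X]) u t = u (q + t) - u t := by
  have := act_X_pow_sub 0 q u t
  rw [pow_zero, zero_add] at this
  exact this

lemma act_zero_right (P : ℝ[X]) : act P (0 : ℕ → ℝ) = 0 := by
  unfold act
  rw [map_zero]

/-- `K` blocks are linearly independent, up to `k` errors -/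
theorem blocks (b : ℕ) (hb : 2 ≤ b) {r : ℕ} (α : Fin r → ℝ) (hα : ∀ k, IsAlgebraic ℚ (α k))
    (hind : Indep α) (d : Fin r → ℕ → ℤ) (B : ℕ) (hB : ∀ s t, |d s t| ≤ B)
    (hd : ∀ s, Exp b (α s) (d s)) (T C k : ℕ) : ∃ n0 : ℕ, ∀ n, n0 ≤ n →
      ∀ f : Fin r → ℝ[X],
      (∀ s, (f s).support.card ≤ T) → (∀ s, (f s).natDegree ≤ C * n) → f ≠ 0 →
      k < nz n (∑ s, act (f s) (fun t => (d s t : ℝ))) := by
  classical
  obtain ⟨m0, hm0⟩ := real_rel b hb α hα hind d B hB hd T (k + 2 * C * (k + 1))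
  refine ⟨(k + 1) * (m0 + 1), fun n hn f hfT hfd hf => ?_⟩
  by_contra hcon
  push Not at hcon
  set v : ℕ → ℝ := ∑ s, act (f s) (fun t => (d s t : ℝ)) with hv
  set m := n / (k + 1) with hm
  have hm1 : m0 + 1 ≤ m := by
    rw [hm, Nat.le_div_iff_mul_le (by omega)]
    linarith
  have hmn : (k + 1) * m ≤ n := Nat.mul_div_le n (k + 1)
  have hnm : n < (k + 1) * (m + 1) := Nat.lt_mul_div_succ n (by omega)
  have hnm2 : n ≤ 2 * (k + 1) * m := by nlinarith
  -- a window without exceptions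
  obtain ⟨g, hg, hgz⟩ : ∃ g, g ≤ k ∧ ∀ t, t < m → v (g * m + t) = 0 := by
    by_contra hc
    push Not at hc
    choose! τ hτ1 hτ2 using hc
    have h1 : (range (k + 1)).card ≤ ((range n).filter (fun t => v t ≠ 0)).card := by
      apply Finset.card_le_card_of_injOn (fun g => g * m + τ g)
      · intro g hg
        rw [Finset.mem_coe, mem_range] at hg
        rw [Finset.mem_coe, mem_filter, mem_range]
        have h1 := hτ1 g (by omega)
        have h2 : g * m + m ≤ (k + 1) * m := by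
          calc g * m + m = (g + 1) * m := by ring
            _ ≤ (k + 1) * m := Nat.mul_le_mul_right _ (by omega)
        exact ⟨by simp only; omega, hτ2 g (by omega)⟩
      · intro g hg g' hg' h
        rw [Finset.mem_coe, mem_range] at hg hg'
        have h1 := hτ1 g (by omega)
        have h2 := hτ1 g' (by omega)
        simp only at h
        have h3 : (g * m + τ g) / m = g := by
          rw [mul_comm, Nat.mul_add_div (by omega), Nat.div_eq_of_lt h1, add_zero]
        have h4 : (g' * m + τ g') / m = g' := by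
          rw [mul_comm, Nat.mul_add_div (by omega), Nat.div_eq_of_lt h2, add_zero]
        rw [← h3, ← h4, h]
    rw [card_range, ← nz_def] at h1
    omega
  refine hm0 m (by omega) (fun s => X ^ (g * m) * f s) ?_ ?_ ?_ ?_
  · intro s
    refine (Polynomial.card_support_mul_le).trans ?_
    have h1 : (X ^ (g * m) : ℝ[X]).support.card ≤ 1 := by
      rw [Polynomial.support_X_pow]
      simp
    calc _ ≤ 1 * T := Nat.mul_le_mul h1 (hfT s)
      _ = T := one_mul T
  · intro s
    refine (Polynomial.natDegree_mul_le).trans ?_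
    rw [natDegree_X_pow]
    calc g * m + (f s).natDegree ≤ k * m + C * n :=
          Nat.add_le_add (Nat.mul_le_mul_right _ hg) (hfd s)
      _ ≤ k * m + C * (2 * (k + 1) * m) := Nat.add_le_add_left (Nat.mul_le_mul_left _ hnm2) _
      _ = (k + 2 * C * (k + 1)) * m := by ring
  · intro h0
    apply hf
    funext s
    have h1 := congrFun h0 s
    simp only [Pi.zero_apply] at h1
    exact (mul_eq_zero.1 h1).resolve_left (pow_ne_zero _ X_ne_zero)
  · intro t ht
    have h1 := hgz t ht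
    rw [hv, Finset.sum_apply] at h1
    rw [← h1]
    apply Finset.sum_congr rfl
    intro s _
    rw [act_mul, act_X_pow]

/-- Beatty sequences are almost periodic with few exceptions -/
lemma beatty (θ ρ : ℝ) (Q : ℕ) (hQ : 1 ≤ Q) : ∃ q : ℕ, 1 ≤ q ∧ q ≤ Q ∧ ∃ p : ℤ, ∀ N : ℕ,
    nz N (fun t => ((⌊θ * ((q + t : ℕ) : ℝ) + ρ⌋ - ⌊θ * (t : ℝ) + ρ⌋ - p : ℤ) : ℝ)) ≤ N / Q + 1 := by
  classical
  set e : ℕ → ℝ := fun q => |θ * q - round (θ * q)| with he
  obtain ⟨q, hq, hmin⟩ := (Finset.Icc 1 Q).exists_min_image e ⟨1, Finset.mem_Icc.2 ⟨le_rfl, hQ⟩⟩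
  rw [Finset.mem_Icc] at hq
  refine ⟨q, hq.1, hq.2, round (θ * q), fun N => ?_⟩
  set p := round (θ * (q : ℝ)) with hp
  set ε : ℝ := θ * q - p with hε
  have hεs : |ε| ≤ 1 / 2 := abs_sub_round _
  -- description of the exceptions
  have hdesc : ∀ t : ℕ, ((⌊θ * ((q + t : ℕ) : ℝ) + ρ⌋ - ⌊θ * (t : ℝ) + ρ⌋ - p : ℤ) : ℝ) ≠ 0 →
      (0 ≤ ε ∧ 1 - ε ≤ Int.fract (θ * t + ρ)) ∨ (ε < 0 ∧ Int.fract (θ * t + ρ) < -ε) := by
    intro t ht
    set y : ℝ := θ * t + ρ with hy
    have h1 : θ * ((q + t : ℕ) : ℝ) + ρ = ((⌊y⌋ + p : ℤ) : ℝ) + (Int.fract y + ε) := by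
      have h2 := Int.floor_add_fract y
      push_cast
      rw [hε]
      have h3 : θ * t + ρ = y := rfl
      linarith
    have h2 : ⌊θ * ((q + t : ℕ) : ℝ) + ρ⌋ = ⌊y⌋ + p + ⌊Int.fract y + ε⌋ := by
      rw [h1, Int.floor_intCast_add]
    have h3 : ⌊Int.fract y + ε⌋ ≠ 0 := by
      intro h4
      apply ht
      rw [h2, h4]
      push_cast
      ring
    have h4 := Int.fract_nonneg y
    have h5 := Int.fract_lt_one y
    rcases le_or_gt 0 ε with h6 | h6
    · left
      refine ⟨h6, ?_⟩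
      by_contra h7
      push Not at h7
      apply h3
      rw [Int.floor_eq_zero_iff]
      exact ⟨by linarith, by linarith⟩
    · right
      refine ⟨h6, ?_⟩
      by_contra h7
      push Not at h7
      apply h3
      rw [Int.floor_eq_zero_iff]
      exact ⟨by linarith, by linarith⟩
  -- exceptions are far apart
  have hfar : ∀ t t' : ℕ, t < t' → t' < t + Q + 1 →
      ((⌊θ * ((q + t : ℕ) : ℝ) + ρ⌋ - ⌊θ * (t : ℝ) + ρ⌋ - p : ℤ) : ℝ) ≠ 0 →
      ((⌊θ * ((q + t' : ℕ) : ℝ) + ρ⌋ - ⌊θ * (t' : ℝ) + ρ⌋ - p : ℤ) : ℝ) ≠ 0 → False := by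
    intro t t' h1 h2 h3 h4
    have h5 := hdesc t h3
    have h6 := hdesc t' h4
    have h7 : |Int.fract (θ * t' + ρ) - Int.fract (θ * t + ρ)| < |ε| := by
      have a1 := Int.fract_nonneg (θ * t + ρ)
      have a2 := Int.fract_nonneg (θ * t' + ρ)
      have a3 := Int.fract_lt_one (θ * t + ρ)
      have a4 := Int.fract_lt_one (θ * t' + ρ)
      rcases h5 with ⟨c1, c2⟩ | ⟨c1, c2⟩
      · rcases h6 with ⟨c3, c4⟩ | ⟨c3, c4⟩
        · rw [abs_of_nonneg c1, abs_lt]
          constructor <;> linarith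
        · linarith
      · rcases h6 with ⟨c3, c4⟩ | ⟨c3, c4⟩
        · linarith
        · rw [abs_of_neg c1, abs_lt]
          constructor <;> linarith
    have h8 : e (t' - t) ≤ |Int.fract (θ * t' + ρ) - Int.fract (θ * t + ρ)| := by
      have h9 : θ * ((t' - t : ℕ) : ℝ) - ((⌊θ * t' + ρ⌋ - ⌊θ * t + ρ⌋ : ℤ) : ℝ) =
          Int.fract (θ * t' + ρ) - Int.fract (θ * t + ρ) := by
        rw [Nat.cast_sub h1.le]
        push_cast
        have b1 := Int.floor_add_fract (θ * t' + ρ)
        have b2 := Int.floor_add_fract (θ * t + ρ)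
        linarith
      rw [← h9]
      exact round_le _ _
    have h9 := hmin (t' - t) (Finset.mem_Icc.2 ⟨by omega, by omega⟩)
    have h10 : e q = |ε| := rfl
    linarith
  rw [nz_def]
  calc _ ≤ (range (N / Q + 1)).card := by
        apply Finset.card_le_card_of_injOn (fun t => t / Q)
        · intro t ht
          rw [Finset.mem_coe, mem_filter, mem_range] at ht
          rw [Finset.mem_coe, mem_range]
          have := Nat.div_le_div_right (c := Q) ht.1.le
          simp only
          omega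
        · intro t ht t' ht' h
          rw [Finset.mem_coe, mem_filter] at ht ht'
          simp only at h
          have a1 := Nat.div_add_mod t Q
          have a2 := Nat.div_add_mod t' Q
          have a3 := Nat.mod_lt t (by omega : Q > 0)
          have a4 := Nat.mod_lt t' (by omega : Q > 0)
          rw [h] at a1
          rcases lt_trichotomy t t' with h1 | h1 | h1
          · exact (hfar t t' h1 (by omega) ht.2 ht'.2).elim
          · exact h1
          · exact (hfar t' t h1 (by omega) ht'.2 ht.2).elim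
    _ = N / Q + 1 := card_range _

end Pool.Agent.Y413.DG
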