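import Pool.Agent.Y413.DG.Spr

set_option autoImplicit false

/-!
Blocks of digits of sparse integer combinations of real algebraic numbers.
-/

namespace Pool.Agent.Y413.DG

open Finset Filter Topology

/-- the digit number `t ≥ 1` after the point of `x` in base `b` -/
noncomputable def dig (b : ℕ) (x : ℝ) (t : ℕ) : ℤ := ⌊x * (b : ℝ) ^ t⌋ % (b : ℤ)

/-- fractional parts -/
noncomputable def fr (b : ℕ) (x : ℝ) (t : ℕ) : ℝ := Int.fract (x * (b : ℝ) ^ t)

lemma fr_nonneg (b : ℕ) (x : ℝ) (t : ℕ) : 0 ≤ fr b x t := Int.fract_nonneg _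
lemma fr_lt (b : ℕ) (x : ℝ) (t : ℕ) : fr b x t < 1 := Int.fract_lt_one _

lemma dig_bound {b : ℕ} (hb : 2 ≤ b) (x : ℝ) (t : ℕ) : 0 ≤ dig b x t ∧ dig b x t < b := by
  have h : (0 : ℤ) < b := by exact_mod_cast (by omega : 0 < b)
  exact ⟨Int.emod_nonneg _ h.ne', Int.emod_lt_of_pos _ h⟩

lemma fr_step {b : ℕ} (hb : 2 ≤ b) (x : ℝ) (t : ℕ) :
    (b : ℝ) * fr b x t = dig b x (t + 1) + fr b x (t + 1) := by
  have hb0 : (0 : ℝ) < b := by exact_mod_cast (by omega : 0 < b)
  set m : ℤ := ⌊x * (b : ℝ) ^ t⌋ with hm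
  set f : ℝ := fr b x t with hf
  have h1 : x * (b : ℝ) ^ (t + 1) = ((b * m : ℤ) : ℝ) + b * f := by
    have h2 : x * (b : ℝ) ^ t = m + f := (Int.floor_add_fract _).symm
    rw [pow_succ, ← mul_assoc, h2]
    push_cast
    ring
  have h0 : 0 ≤ (b : ℝ) * f := mul_nonneg hb0.le (fr_nonneg _ _ _)
  have hlt : (b : ℝ) * f < b := by
    have := fr_lt b x t
    nlinarith
  have h3 : dig b x (t + 1) = ⌊(b : ℝ) * f⌋ := by
    unfold dig
    rw [h1, Int.floor_intCast_add, Int.add_comm, Int.add_mul_emod_self_left]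
    apply Int.emod_eq_of_lt
    · exact Int.floor_nonneg.2 h0
    · rw [Int.floor_lt]
      exact_mod_cast hlt
  have h4 : fr b x (t + 1) = Int.fract ((b : ℝ) * f) := by
    unfold fr
    rw [h1, Int.fract_intCast_add]
  rw [h3, h4]
  exact (Int.floor_add_fract _).symm

lemma fr_sum {b : ℕ} (hb : 2 ≤ b) (x : ℝ) (i n : ℕ) :
    fr b x i = ∑ t ∈ range n, (dig b x (i + t + 1) : ℝ) * (b : ℝ) ^ (-((t : ℤ) + 1)) +
      (b : ℝ) ^ (-(n : ℤ)) * fr b x (i + n) := by
  have hb0 : (b : ℝ) ≠ 0 := by exact_mod_cast (by omega : b ≠ 0)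
  induction n with
  | zero => simp
  | succ n ih =>
    rw [Finset.sum_range_succ, ih]
    have h1 := fr_step hb x (i + n)
    have h2 : (b : ℝ) ^ (-(n : ℤ)) = b * (b : ℝ) ^ (-((n : ℤ) + 1)) := by
      have h3 : (-(n : ℤ)) = 1 + -((n : ℤ) + 1) := by ring
      rw [h3, zpow_add₀ hb0, zpow_one]
    rw [h2]
    push_cast
    have h4 : (b : ℝ) * (b : ℝ) ^ (-((n : ℤ) + 1)) * fr b x (i + n) =
        (b : ℝ) ^ (-((n : ℤ) + 1)) * (b * fr b x (i + n)) := by ring
    rw [h4, h1]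
    have h5 : i + (n + 1) = i + n + 1 := by ring
    rw [h5]
    ring

/-- `A` is a sum of at most `K` terms `c b ^ m` with `|c| < b` and `m ≤ M` -/
def Sparse (b K M : ℕ) (A : ℤ) : Prop :=
  ∃ (a : Fin K → ℤ) (m : Fin K → ℕ), (∀ l, |a l| < b ∧ m l ≤ M) ∧ A = ∑ l, a l * (b : ℤ) ^ m l

/-- the main estimate for finite index sets -/
theorem ok' (b : ℕ) (hb : 2 ≤ b) {r : ℕ} (α : Fin r → ℝ) (hα : ∀ k, IsAlgebraic ℚ (α k))
    (hind : Indep α) (T B D : ℕ) (ε : ℝ) (hε : 0 < ε) : ∃ N0 : ℕ, ∀ N, N0 ≤ N →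
    ∀ (ι : Type) [Fintype ι], Fintype.card ι ≤ T →
    ∀ (n : ι → ℤ) (x : ι → Fin r → ℤ) (y : ι → ℤ) (P : ℤ),
      (∀ i, |n i| ≤ N) → (∀ i k, |x i k| ≤ B) → (∀ i, |y i| ≤ B) →
      (∀ i, x i ≠ 0 → -(D : ℤ) ≤ n i) → (∃ k, ∑ i, (x i k : ℝ) * (b : ℝ) ^ (n i) ≠ 0) →
      (b : ℝ) ^ (-(ε * N)) < |∑ i, (∑ k, x i k * α k + y i) * (b : ℝ) ^ (n i) - P| := by
  choose N0 hN0 using fun t => ok b hb α hα hind t B D ε hε
  refine ⟨(range (T + 1)).sup N0, fun N hN ι _ hc n x y P h1 h2 h3 h4 h5 => ?_⟩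
  have e := (Fintype.equivFin ι).symm
  have hle : N0 (Fintype.card ι) ≤ N :=
    (Finset.le_sup (f := N0) (mem_range.2 (by omega))).trans hN
  have key := hN0 (Fintype.card ι) N hle (fun l => n (e l)) (fun l => x (e l)) (fun l => y (e l)) P
    (fun l => h1 _) (fun l => h2 _) (fun l => h3 _) (fun l => h4 _) ?_
  · rw [Equiv.sum_comp e (fun i => (∑ k, (x i k : ℝ) * α k + y i) * (b : ℝ) ^ (n i))] at key
    exact key
  · obtain ⟨k, hk⟩ := h5
    refine ⟨k, ?_⟩
    rw [Equiv.sum_comp e (fun i => (x i k : ℝ) * (b : ℝ) ^ (n i))]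
    exact hk

/-- Blocks of `n` digits of two sparse combinations differ in more than `k` places. -/
theorem core (b : ℕ) (hb : 2 ≤ b) {r : ℕ} (α : Fin r → ℝ) (hα : ∀ k, IsAlgebraic ℚ (α k))
    (hind : Indep α) (C K k : ℕ) : ∃ n0 : ℕ, ∀ n, n0 ≤ n → ∀ A A' : Fin r → ℤ,
      (∀ s, Sparse b K (C * n) (A s)) → (∀ s, Sparse b K (C * n) (A' s)) →
      ∀ i j, i ≤ C * n → j ≤ C * n → (∃ s, A s * (b : ℤ) ^ i ≠ A' s * (b : ℤ) ^ j) →
        k < ((range n).filter (fun t => dig b (∑ s, A s * α s) (i + t + 1) ≠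
          dig b (∑ s, A' s * α s) (j + t + 1))).card := by
  classical
  have hb0 : (0 : ℝ) < b := by exact_mod_cast (by omega : 0 < b)
  have hb1 : (1 : ℝ) < b := by exact_mod_cast (by omega : 1 < b)
  obtain ⟨N0, hN0⟩ := ok' b hb α hα hind (r * K + (r * K + k)) b 0 (1 / (2 * (2 * C + 1)))
    (by positivity)
  refine ⟨N0, fun n hn A A' hA hA' i j hi hj hne => ?_⟩
  by_contra hcard
  push Not at hcard
  choose a m ham hAs using hA
  choose a' m' ham' hAs' using hA'
  set y : ℝ := ∑ s, (A s : ℝ) * α s with hy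
  set z : ℝ := ∑ s, (A' s : ℝ) * α s with hz
  set S := (range n).filter (fun t => dig b y (i + t + 1) ≠ dig b z (j + t + 1)) with hS
  have hNn : N0 ≤ (2 * C + 1) * n := hn.trans (Nat.le_mul_of_pos_left n (by omega))
  have hcast : (((2 * C + 1) * n : ℕ) : ℤ) = 2 * (C * n : ℕ) + n := by push_cast; ring
  have key := hN0 ((2 * C + 1) * n) hNn ((Fin r × Fin K) ⊕ ((Fin r × Fin K) ⊕ S)) (by
      simp only [Fintype.card_sum, Fintype.card_prod, Fintype.card_fin, Fintype.card_coe]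
      omega)
    (Sum.elim (fun p => (m p.1 p.2 : ℤ) + i) (Sum.elim (fun p => (m' p.1 p.2 : ℤ) + j)
      (fun t => -(((t : ℕ) : ℤ) + 1))))
    (Sum.elim (fun p => Pi.single p.1 (a p.1 p.2)) (Sum.elim (fun p => Pi.single p.1 (-a' p.1 p.2))
      (fun _ => 0)))
    (Sum.elim (fun _ => 0) (Sum.elim (fun _ => 0)
      (fun t => -(dig b y (i + t + 1) - dig b z (j + t + 1)))))
    (⌊y * (b : ℝ) ^ i⌋ - ⌊z * (b : ℝ) ^ j⌋) ?_ ?_ ?_ ?_ ?_
  · -- the sum
    have hsingle : ∀ (s : Fin r) (c : ℤ), ∑ k, ((Pi.single s c : Fin r → ℤ) k : ℝ) * α k = c * α s := by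
      intro s c
      rw [Finset.sum_eq_single s]
      · rw [Pi.single_eq_same]
      · intro k _ hk
        rw [Pi.single_eq_of_ne hk, Int.cast_zero, zero_mul]
      · intro h; exact absurd (mem_univ s) h
    have h1 : ∑ s, ∑ l, ((a s l : ℝ) * α s) * (b : ℝ) ^ ((m s l : ℤ) + i) = y * (b : ℝ) ^ i := by
      rw [hy, Finset.sum_mul]
      apply Finset.sum_congr rfl
      intro s _
      rw [hAs s]
      push_cast
      rw [Finset.sum_mul, Finset.sum_mul]
      apply Finset.sum_congr rfl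
      intro l _
      rw [zpow_add₀ hb0.ne', zpow_natCast, zpow_natCast]
      ring
    have h2 : ∑ s, ∑ l, (((-a' s l : ℤ) : ℝ) * α s) * (b : ℝ) ^ ((m' s l : ℤ) + j) =
        -(z * (b : ℝ) ^ j) := by
      rw [hz, Finset.sum_mul, ← Finset.sum_neg_distrib]
      apply Finset.sum_congr rfl
      intro s _
      rw [hAs' s]
      push_cast
      rw [Finset.sum_mul, Finset.sum_mul, ← Finset.sum_neg_distrib]
      apply Finset.sum_congr rfl
      intro l _
      rw [zpow_add₀ hb0.ne', zpow_natCast, zpow_natCast]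
      ring
    have h3 : ∑ t : S, ((-(dig b y (i + (t : ℕ) + 1) - dig b z (j + (t : ℕ) + 1)) : ℤ) : ℝ) *
        (b : ℝ) ^ (-(((t : ℕ) : ℤ) + 1)) =
        -∑ t ∈ range n, ((dig b y (i + t + 1) : ℝ) - dig b z (j + t + 1)) *
          (b : ℝ) ^ (-((t : ℤ) + 1)) := by
      rw [Finset.sum_coe_sort S (fun t => ((-(dig b y (i + t + 1) - dig b z (j + t + 1)) : ℤ) : ℝ) *
        (b : ℝ) ^ (-((t : ℤ) + 1))), ← Finset.sum_neg_distrib, hS, Finset.sum_filter]
      apply Finset.sum_congr rfl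
      intro t _
      by_cases h4 : dig b y (i + t + 1) = dig b z (j + t + 1)
      · rw [if_neg (not_not.2 h4), h4, sub_self, zero_mul, neg_zero]
      · rw [if_pos h4]
        push_cast
        ring
    have h4 : ∀ w : ℝ, ∀ u : ℕ, w * (b : ℝ) ^ u - ⌊w * (b : ℝ) ^ u⌋ = fr b w u := fun w u => rfl
    have h5 : |y * (b : ℝ) ^ i + (-(z * (b : ℝ) ^ j) +
        -∑ t ∈ range n, ((dig b y (i + t + 1) : ℝ) - dig b z (j + t + 1)) *
          (b : ℝ) ^ (-((t : ℤ) + 1))) - ((⌊y * (b : ℝ) ^ i⌋ : ℝ) - ⌊z * (b : ℝ) ^ j⌋)| ≤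
        (b : ℝ) ^ (-(n : ℤ)) := by
      have h6 := fr_sum hb y i n
      have h7 := fr_sum hb z j n
      have h8 := h4 y i
      have h9 := h4 z j
      have h10 : ∑ t ∈ range n, ((dig b y (i + t + 1) : ℝ) - dig b z (j + t + 1)) *
          (b : ℝ) ^ (-((t : ℤ) + 1)) =
          ∑ t ∈ range n, (dig b y (i + t + 1) : ℝ) * (b : ℝ) ^ (-((t : ℤ) + 1)) -
          ∑ t ∈ range n, (dig b z (j + t + 1) : ℝ) * (b : ℝ) ^ (-((t : ℤ) + 1)) := by
        rw [← Finset.sum_sub_distrib]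
        apply Finset.sum_congr rfl
        intro t _
        ring
      have h11 : y * (b : ℝ) ^ i + (-(z * (b : ℝ) ^ j) +
        -∑ t ∈ range n, ((dig b y (i + t + 1) : ℝ) - dig b z (j + t + 1)) *
          (b : ℝ) ^ (-((t : ℤ) + 1))) - ((⌊y * (b : ℝ) ^ i⌋ : ℝ) - ⌊z * (b : ℝ) ^ j⌋) =
          (b : ℝ) ^ (-(n : ℤ)) * (fr b y (i + n) - fr b z (j + n)) := by
        rw [h10]
        linarith
      rw [h11, abs_mul, abs_of_pos (zpow_pos hb0 _)]
      have h12 : |fr b y (i + n) - fr b z (j + n)| ≤ 1 := by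
        rw [abs_le]
        have := fr_nonneg b y (i + n)
        have := fr_nonneg b z (j + n)
        have := fr_lt b y (i + n)
        have := fr_lt b z (j + n)
        constructor <;> linarith
      exact mul_le_of_le_one_right (zpow_pos hb0 _).le h12
    simp only [Fintype.sum_sum_type, Sum.elim_inl, Sum.elim_inr, Fintype.sum_prod_type, hsingle,
      Int.cast_zero, add_zero, Pi.zero_apply, zero_mul, Finset.sum_const_zero, zero_add] at key
    rw [h1, h2, h3, Int.cast_sub] at key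
    have h6 : (b : ℝ) ^ (-(n : ℤ)) ≤ (b : ℝ) ^ (-(1 / (2 * (2 * (C : ℝ) + 1)) *
        (((2 * C + 1) * n : ℕ) : ℝ))) := by
      rw [← Real.rpow_intCast]
      apply Real.rpow_le_rpow_of_exponent_le hb1.le
      push_cast
      have h7 : 1 / (2 * (2 * (C : ℝ) + 1)) * ((2 * C + 1) * n) = n / 2 := by
        have : (2 * (C : ℝ) + 1) ≠ 0 := by positivity
        field_simp
      rw [h7]
      have : (0 : ℝ) ≤ n := Nat.cast_nonneg n
      linarith
    exact absurd key (not_lt.2 (h5.trans h6))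
  · rintro (p | p | t)
    · simp only [Sum.elim_inl]
      have h1 := (ham p.1 p.2).2
      rw [hcast, abs_of_nonneg (by positivity)]
      push_cast
      have h2 : (m p.1 p.2 : ℤ) ≤ C * n := by exact_mod_cast h1
      have h3 : (i : ℤ) ≤ C * n := by exact_mod_cast hi
      have h4 : (0 : ℤ) ≤ n := Int.natCast_nonneg n
      linarith
    · simp only [Sum.elim_inr, Sum.elim_inl]
      have h1 := (ham' p.1 p.2).2
      rw [hcast, abs_of_nonneg (by positivity)]
      push_cast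
      have h2 : (m' p.1 p.2 : ℤ) ≤ C * n := by exact_mod_cast h1
      have h3 : (j : ℤ) ≤ C * n := by exact_mod_cast hj
      have h4 : (0 : ℤ) ≤ n := Int.natCast_nonneg n
      linarith
    · simp only [Sum.elim_inr]
      have h1 : (t : ℕ) < n := mem_range.1 (Finset.mem_of_mem_filter _ t.2)
      rw [hcast, abs_neg, abs_of_nonneg (by positivity)]
      push_cast
      have h2 : ((t : ℕ) : ℤ) + 1 ≤ n := by exact_mod_cast h1
      have h3 : (0 : ℤ) ≤ C * n := by positivity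
      linarith
  · have hs : ∀ (s k : Fin r) (c : ℤ), |c| < b → |(Pi.single s c : Fin r → ℤ) k| ≤ b := by
      intro s k c hc
      by_cases h : k = s
      · rw [h, Pi.single_eq_same]; exact hc.le
      · rw [Pi.single_eq_of_ne h, abs_zero]; positivity
    rintro (p | p | t) k
    · simp only [Sum.elim_inl]
      exact hs _ _ _ (ham p.1 p.2).1
    · simp only [Sum.elim_inr, Sum.elim_inl]
      exact hs _ _ _ (by rw [abs_neg]; exact (ham' p.1 p.2).1)
    · simp
  · rintro (p | p | t)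
    · simp
    · simp
    · simp only [Sum.elim_inr]
      rw [abs_neg, abs_le]
      have h1 := dig_bound hb y (i + t + 1)
      have h2 := dig_bound hb z (j + t + 1)
      constructor <;> linarith
  · rintro (p | p | t) h
    · simp only [Sum.elim_inl]; positivity
    · simp only [Sum.elim_inr, Sum.elim_inl]; positivity
    · simp only [Sum.elim_inr] at h
      exact absurd rfl h
  · obtain ⟨s, hs⟩ := hne
    refine ⟨s, ?_⟩
    simp only [Fintype.sum_sum_type, Sum.elim_inl, Sum.elim_inr, Fintype.sum_prod_type,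
      Pi.zero_apply, Int.cast_zero, zero_mul, Finset.sum_const_zero, add_zero]
    have h1 : ∀ (c : Fin r → Fin K → ℤ) (e : Fin r → Fin K → ℕ) (u : ℕ),
        ∑ s', ∑ l, (((Pi.single s' (c s' l) : Fin r → ℤ) s : ℤ) : ℝ) * (b : ℝ) ^ ((e s' l : ℤ) + u) =
        (∑ l, (c s l : ℝ) * (b : ℝ) ^ e s l) * (b : ℝ) ^ u := by
      intro c e u
      rw [Finset.sum_eq_single s]
      · rw [Finset.sum_mul]
        apply Finset.sum_congr rfl
        intro l _
        rw [Pi.single_eq_same, zpow_add₀ hb0.ne', zpow_natCast, zpow_natCast, mul_assoc]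
      · intro s' _ hs'
        apply Finset.sum_eq_zero
        intro l _
        rw [Pi.single_eq_of_ne (Ne.symm hs'), Int.cast_zero, zero_mul]
      · intro h; exact absurd (mem_univ s) h
    rw [h1 a m i, h1 (fun s l => -a' s l) m' j]
    intro h2
    apply hs
    have h3 : (∑ l, (a s l : ℝ) * (b : ℝ) ^ m s l) = A s := by rw [hAs s]; push_cast; rfl
    have h4 : (∑ l, (((-a' s l : ℤ)) : ℝ) * (b : ℝ) ^ m' s l) = -A' s := by
      rw [hAs' s, ← Int.cast_neg, ← Finset.sum_neg_distrib]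
      push_cast
      apply Finset.sum_congr rfl
      intro l _
      ring
    rw [h3, h4] at h2
    have h5 : (A s : ℝ) * (b : ℝ) ^ i = A' s * (b : ℝ) ^ j := by linarith
    exact_mod_cast h5

end Pool.Agent.Y413.DG
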