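import Pool.Agent.Y413.DG.Dft

set_option autoImplicit false

/-!
Filtered digit sequences plus Beatty sequences have superlinear complexity, uniformly.
-/

namespace Pool.Agent.Y413.DG

open Polynomial Finset Filter Topology

lemma card_support_sub_le (p q : ℝ[X]) : (p - q).support.card ≤ p.support.card + q.support.card := by
  classical
  refine (Finset.card_le_card ?_).trans (Finset.card_union_le _ _)
  intro j hj
  rw [mem_support_iff, coeff_sub] at hj
  rw [mem_union, mem_support_iff, mem_support_iff]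
  by_contra h
  push Not at h
  apply hj
  rw [h.1, h.2, sub_zero]

lemma card_support_X_pow (j : ℕ) : (X ^ j : ℝ[X]).support.card = 1 := by
  rw [Polynomial.support_X_pow, Finset.card_singleton]

lemma card_support_one : (1 : ℝ[X]).support.card = 1 := by
  have := card_support_X_pow 0
  rwa [pow_zero] at this

lemma card_support_prod_le {ι : Type} (s : Finset ι) (q : ι → ℕ) :
    (∏ l ∈ s, (X ^ q l - 1 : ℝ[X])).support.card ≤ 2 ^ s.card := by
  classical
  induction s using Finset.induction_on with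
  | empty =>
    rw [Finset.prod_empty, card_support_one]
    simp
  | insert a s ha ih =>
    rw [Finset.prod_insert ha, Finset.card_insert_of_notMem ha, pow_succ, mul_comm]
    refine (Polynomial.card_support_mul_le).trans (Nat.mul_le_mul ih ?_)
    refine (card_support_sub_le _ _).trans ?_
    rw [card_support_X_pow, card_support_one]

lemma natDegree_prod_le {ι : Type} (s : Finset ι) (q : ι → ℕ) (Q : ℕ) (hq : ∀ l ∈ s, q l ≤ Q) :
    (∏ l ∈ s, (X ^ q l - 1 : ℝ[X])).natDegree ≤ s.card * Q := by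
  classical
  refine (Polynomial.natDegree_prod_le _ _).trans ?_
  rw [← smul_eq_mul, ← Finset.sum_const]
  apply Finset.sum_le_sum
  intro l hl
  refine (Polynomial.natDegree_sub_le _ _).trans ?_
  rw [natDegree_X_pow, natDegree_one]
  exact max_le (hq l hl) (Nat.zero_le _)

lemma X_pow_sub_one_ne (q : ℕ) (hq : 1 ≤ q) : (X ^ q - 1 : ℝ[X]) ≠ 0 := by
  intro h
  have h1 := congrArg (fun p : ℝ[X] => p.coeff 0) h
  simp only [coeff_sub, coeff_X_pow, coeff_one_zero, coeff_zero] at h1
  rw [if_neg (by omega)] at h1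
  norm_num at h1

lemma X_pow_sub_ne (i j : ℕ) (hij : i < j) : (X ^ j - X ^ i : ℝ[X]) ≠ 0 := by
  intro h
  have h1 := congrArg (fun p : ℝ[X] => p.coeff i) h
  simp only [coeff_sub, coeff_X_pow, coeff_zero] at h1
  rw [if_neg (by omega)] at h1
  norm_num at h1

/-- a Beatty sequence, as a real sequence -/
noncomputable def bt (θ ρ : ℝ) : ℕ → ℝ := fun t => (⌊θ * (t : ℝ) + ρ⌋ : ℝ)

/-- **blocks of digits modulo locally periodic sequences** -/
theorem pert (b : ℕ) (hb : 2 ≤ b) {r : ℕ} (α : Fin r → ℝ) (hα : ∀ k, IsAlgebraic ℚ (α k))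
    (hind : Indep α) (d : Fin r → ℕ → ℤ) (B : ℕ) (hB : ∀ s t, |d s t| ≤ B)
    (hd : ∀ s, Exp b (α s) (d s)) (T S C k : ℕ) : ∃ n0 : ℕ, ∀ n, n0 ≤ n →
      ∀ f : Fin r → ℝ[X],
      (∀ s, (f s).support.card ≤ T) → (∀ s, (f s).natDegree ≤ C * n) → f ≠ 0 →
      ∀ u : Fin S → ℕ → ℝ, (∀ l, ∃ q, 1 ≤ q ∧ 4 * (S + 1) * q ≤ n ∧ ∃ p : ℝ,
        nz n (fun t => u l (q + t) - u l t - p) ≤ k) →
      k < nz n (∑ s, act (f s) (fun t => (d s t : ℝ)) + ∑ l, u l) := by
  classical
  -- the constants
  set k2 : ℕ := 2 ^ (S + 1) * k + S * (2 ^ (S + 1) * k) with hk2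
  obtain ⟨n1, hn1⟩ := blocks b hb α hα hind d B hB hd (2 ^ (S + 1) * T) (3 * (C + 1)) k2
  refine ⟨2 * n1 + 4, fun n hn f hfT hfd hf u hu => ?_⟩
  choose q hq1 hqn p hp using hu
  set D : ℕ → ℝ := ∑ s, act (f s) (fun t => (d s t : ℝ)) with hD
  by_contra hcon
  push Not at hcon
  set G : ℝ[X] := (X - 1) * ∏ l, (X ^ q l - 1 : ℝ[X]) with hG
  set n' := n / 2 with hn'
  set Q := n / (4 * (S + 1)) with hQ
  have hqQ : ∀ l, q l ≤ Q := by
    intro l
    rw [hQ, Nat.le_div_iff_mul_le (by omega)]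
    have := hqn l
    rw [mul_comm]
    exact this
  have hQ2 : 4 * (S + 1) * Q ≤ n := Nat.mul_div_le n _
  have hTQ : S * Q ≤ n / 4 := by
    rw [Nat.le_div_iff_mul_le (by omega)]
    nlinarith
  have hcX : (X - 1 : ℝ[X]).support.card ≤ 2 := by
    refine (card_support_sub_le _ _).trans ?_
    have := card_support_X_pow 1
    rw [pow_one] at this
    rw [this, card_support_one]
  have hdX : (X - 1 : ℝ[X]).natDegree ≤ 1 := by
    refine (Polynomial.natDegree_sub_le _ _).trans ?_
    rw [natDegree_X, natDegree_one]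
    simp
  have hGc : G.support.card ≤ 2 ^ (S + 1) := by
    refine (Polynomial.card_support_mul_le).trans ?_
    rw [pow_succ, mul_comm]
    refine Nat.mul_le_mul ?_ hcX
    have := card_support_prod_le (univ : Finset (Fin S)) q
    rwa [Finset.card_univ, Fintype.card_fin] at this
  have hGd : G.natDegree ≤ 1 + S * Q := by
    refine (Polynomial.natDegree_mul_le).trans (Nat.add_le_add hdX ?_)
    have := natDegree_prod_le (univ : Finset (Fin S)) q Q (fun l _ => hqQ l)
    rwa [Finset.card_univ, Fintype.card_fin] at this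
  -- the filtered sequence
  have hv2 : nz n' (act G (D + ∑ l, u l)) ≤ 2 ^ (S + 1) * k := by
    refine (nz_act _ _ _).trans (Nat.mul_le_mul hGc ?_)
    refine (nz_mono ?_ _).trans hcon
    omega
  -- the periodic part
  have hu2 : nz n' (act G (∑ l, u l)) ≤ S * (2 ^ (S + 1) * k) := by
    rw [act_sum_right]
    refine (nz_sum _ _ _).trans ?_
    have hcard : S * (2 ^ (S + 1) * k) = ∑ _l : Fin S, (2 ^ (S + 1) * k) := by
      rw [Finset.sum_const, Finset.card_univ, Fintype.card_fin, smul_eq_mul]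
    rw [hcard]
    apply Finset.sum_le_sum
    intro l _
    set Gl : ℝ[X] := ∏ l' ∈ univ.erase l, (X ^ q l' - 1 : ℝ[X]) with hGl
    have hGGl : G = (Gl * (X - 1)) * (X ^ q l - 1) := by
      rw [hG, ← Finset.prod_erase_mul univ _ (mem_univ l)]
      ring
    set wl : ℕ → ℝ := fun t => u l (q l + t) - u l t - p l with hwl
    have hb1 : act (X ^ q l - 1 : ℝ[X]) (u l) = (fun _ => p l) + wl := by
      funext t
      rw [act_X_pow_sub_one, Pi.add_apply, hwl]
      ring
    have hb2 : act (X - 1 : ℝ[X]) (fun _ => p l) = 0 := by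
      funext t
      have := act_X_pow_sub_one 1 (fun _ => p l) t
      rw [pow_one] at this
      rw [this, sub_self]
      rfl
    have hb3 : act G (u l) = act (Gl * (X - 1)) wl := by
      rw [hGGl, act_mul, hb1, act_add_right, act_mul, hb2, act_zero_right, zero_add]
    rw [hb3]
    refine (nz_act _ _ _).trans (Nat.mul_le_mul ?_ ?_)
    · refine (Polynomial.card_support_mul_le).trans ?_
      rw [pow_succ]
      refine Nat.mul_le_mul ?_ hcX
      refine (card_support_prod_le (univ.erase l) q).trans ?_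
      apply Nat.pow_le_pow_right (by norm_num)
      refine (Finset.card_le_card (Finset.erase_subset _ _)).trans ?_
      rw [Finset.card_univ, Fintype.card_fin]
    · refine (nz_mono ?_ _).trans (hp l)
      have hdeg : (Gl * (X - 1)).natDegree ≤ S * Q + 1 := by
        refine (Polynomial.natDegree_mul_le).trans (Nat.add_le_add ?_ hdX)
        refine (natDegree_prod_le (univ.erase l) q Q (fun l _ => hqQ l)).trans ?_
        apply Nat.mul_le_mul_right
        refine (Finset.card_le_card (Finset.erase_subset _ _)).trans ?_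
        rw [Finset.card_univ, Fintype.card_fin]
      omega
  -- conclusion
  have hD2 : nz n' (act G D) ≤ k2 := by
    have h1 : act G D = act G (D + ∑ l, u l) + (-1 : ℝ) • act G (∑ l, u l) := by
      rw [act_add_right]
      funext t
      simp only [Pi.add_apply, Pi.smul_apply, smul_eq_mul]
      ring
    rw [h1]
    refine (nz_add _ _ _).trans (Nat.add_le_add hv2 (le_trans ?_ hu2))
    exact nz_of_imp (fun t _ h h0 => h (by rw [Pi.smul_apply, h0, smul_zero]))
  have hn1' : n1 ≤ n' := by omega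
  have hGP0 : G ≠ 0 := by
    apply mul_ne_zero
    · have := X_pow_sub_one_ne 1 le_rfl
      rwa [pow_one] at this
    · exact Finset.prod_ne_zero_iff.2 fun l _ => X_pow_sub_one_ne _ (hq1 l)
  have key := hn1 n' hn1' (fun s => G * f s) ?_ ?_ ?_
  · have h1 : ∑ s, act (G * f s) (fun t => (d s t : ℝ)) = act G D := by
      rw [hD, act_sum_right]
      apply Finset.sum_congr rfl
      intro s _
      rw [act_mul]
    rw [h1] at key
    omega
  · intro s
    exact (Polynomial.card_support_mul_le).trans (Nat.mul_le_mul hGc (hfT s))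
  · intro s
    refine (Polynomial.natDegree_mul_le).trans ?_
    have h2 := hfd s
    have h3 : n ≤ 3 * n' := by omega
    have h4 : 3 * (C + 1) * n' = (C + 1) * (3 * n') := by ring
    rw [h4]
    calc G.natDegree + (f s).natDegree ≤ (1 + S * Q) + C * n := Nat.add_le_add hGd h2
      _ ≤ (C + 1) * n := by
          have : (C + 1) * n = C * n + n := by ring
          omega
      _ ≤ (C + 1) * (3 * n') := Nat.mul_le_mul_left _ h3
  · intro h0
    apply hf
    funext s
    have h1 := congrFun h0 s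
    simp only [Pi.zero_apply] at h1
    exact (mul_eq_zero.1 h1).resolve_left hGP0

/-- **uniform superlinear complexity** -/
theorem filt0 (b : ℕ) (hb : 2 ≤ b) {r : ℕ} (α : Fin r → ℝ) (hα : ∀ k, IsAlgebraic ℚ (α k))
    (hind : Indep α) (d : Fin r → ℕ → ℤ) (B : ℕ) (hB : ∀ s t, |d s t| ≤ B)
    (hd : ∀ s, Exp b (α s) (d s)) (T S C k : ℕ) : ∃ n0 : ℕ, ∀ n, n0 ≤ n →
      ∀ f : Fin r → ℝ[X],
      (∀ s, (f s).support.card ≤ T) → (∀ s, (f s).natDegree ≤ C * n) → f ≠ 0 →
      ∀ u : Fin S → ℕ → ℝ, (∀ l, ∃ q, 1 ≤ q ∧ 4 * (S + 1) * q ≤ n ∧ ∃ p : ℝ,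
        nz ((C + 1) * n) (fun t => u l (q + t) - u l t - p) ≤ k) →
      ∀ W : Finset (ℕ → ℝ), W.card ≤ C * n →
      ∃ i, i ≤ C * n ∧ ∀ w ∈ W, k < nz n (fun t =>
        (∑ s, act (f s) (fun t => (d s t : ℝ)) + ∑ l, u l) (i + t) - w t) := by
  classical
  obtain ⟨n1, hn1⟩ := pert b hb α hα hind d B hB hd (2 * T) S (2 * C) (2 * k)
  refine ⟨n1, fun n hn f hfT hfd hf u hu W hW => ?_⟩
  set D : ℕ → ℝ := ∑ s, act (f s) (fun t => (d s t : ℝ)) with hD
  by_contra hcon
  push Not at hcon
  -- pigeonhole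
  choose! w hwW hw using hcon
  obtain ⟨i, hi, j, hj, hij, hwij⟩ := Finset.exists_ne_map_eq_of_card_lt_of_maps_to
    (s := range (C * n + 1)) (t := W) (f := w) (by rw [card_range]; omega)
    (fun i hi => hwW i (by have := mem_range.1 hi; omega))
  wlog hlt : i < j generalizing i j
  · exact this j hj i hi hij.symm hwij.symm (by omega)
  rw [mem_range] at hi hj
  set P1 : ℝ[X] := X ^ j - X ^ i with hP1
  have hP1c : P1.support.card ≤ 2 := by
    refine (card_support_sub_le _ _).trans ?_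
    rw [card_support_X_pow, card_support_X_pow]
  have hP1d : P1.natDegree ≤ C * n := by
    refine (Polynomial.natDegree_sub_le _ _).trans ?_
    rw [natDegree_X_pow, natDegree_X_pow]
    exact max_le (by omega) (by omega)
  have hv1 : nz n (act P1 (D + ∑ l, u l)) ≤ 2 * k := by
    have h1 := hw i (by omega)
    have h2 := hw j (by omega)
    rw [hwij] at h1
    have h3 : act P1 (D + ∑ l, u l) = (fun t => (D + ∑ l, u l) (j + t) - w j t) +
        (fun t => -((D + ∑ l, u l) (i + t) - w j t)) := by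
      funext t
      rw [hP1, act_X_pow_sub]
      simp only [Pi.add_apply]
      ring
    rw [h3]
    refine (nz_add _ _ _).trans ?_
    have h4 : nz n (fun t => -((D + ∑ l, u l) (i + t) - w j t)) ≤
        nz n (fun t => (D + ∑ l, u l) (i + t) - w j t) :=
      nz_of_imp (fun t _ h h0 => h (by rw [h0, neg_zero]))
    omega
  have key := hn1 n hn (fun s => P1 * f s) ?_ ?_ ?_ (fun l => act P1 (u l)) ?_
  · have h1 : ∑ s, act (P1 * f s) (fun t => (d s t : ℝ)) + ∑ l, act P1 (u l) =
        act P1 (D + ∑ l, u l) := by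
      rw [hD, act_add_right, act_sum_right, act_sum_right]
      congr 1
      apply Finset.sum_congr rfl
      intro s _
      rw [act_mul]
    rw [h1] at key
    omega
  · intro s
    exact (Polynomial.card_support_mul_le).trans (Nat.mul_le_mul hP1c (hfT s))
  · intro s
    refine (Polynomial.natDegree_mul_le).trans ?_
    calc P1.natDegree + (f s).natDegree ≤ C * n + C * n := Nat.add_le_add hP1d (hfd s)
      _ = 2 * C * n := by ring
  · intro h0
    apply hf
    funext s
    have h1 := congrFun h0 s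
    simp only [Pi.zero_apply] at h1
    exact (mul_eq_zero.1 h1).resolve_left (X_pow_sub_ne i j hlt)
  · intro l
    obtain ⟨q, hq1, hqn, p, hp⟩ := hu l
    refine ⟨q, hq1, hqn, 0, ?_⟩
    set wl : ℕ → ℝ := fun t => u l (q + t) - u l t - p with hwl
    have h1 : (fun t => act P1 (u l) (q + t) - act P1 (u l) t - 0) = act P1 wl := by
      funext t
      rw [hP1, act_X_pow_sub, act_X_pow_sub, act_X_pow_sub, hwl]
      simp only
      have e1 : j + (q + t) = q + (j + t) := by ring
      have e2 : i + (q + t) = q + (i + t) := by ring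
      rw [e1, e2]
      ring
    rw [h1]
    refine (nz_act _ _ _).trans (Nat.mul_le_mul hP1c ((nz_mono ?_ _).trans hp))
    have : (C + 1) * n = C * n + n := by ring
    omega

/-- with Beatty sequences -/
theorem filt (b : ℕ) (hb : 2 ≤ b) {r : ℕ} (α : Fin r → ℝ) (hα : ∀ k, IsAlgebraic ℚ (α k))
    (hind : Indep α) (d : Fin r → ℕ → ℤ) (B : ℕ) (hB : ∀ s t, |d s t| ≤ B)
    (hd : ∀ s, Exp b (α s) (d s)) (T S C k : ℕ) : ∃ n0 : ℕ, ∀ n, n0 ≤ n →
      ∀ f : Fin r → ℝ[X],
      (∀ s, (f s).support.card ≤ T) → (∀ s, (f s).natDegree ≤ C * n) → f ≠ 0 →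
      ∀ c θ ρ : Fin S → ℝ, ∀ W : Finset (ℕ → ℝ), W.card ≤ C * n →
      ∃ i, i ≤ C * n ∧ ∀ w ∈ W, k < nz n (fun t =>
        (∑ s, act (f s) (fun t => (d s t : ℝ)) + ∑ l, c l • bt (θ l) (ρ l)) (i + t) - w t) := by
  classical
  set R : ℕ := (C + 1) * (8 * (S + 1)) + 1 with hR
  obtain ⟨n1, hn1⟩ := filt0 b hb α hα hind d B hB hd T S C (max k R)
  refine ⟨n1 + 4 * (S + 1), fun n hn f hfT hfd hf c θ ρ W hW => ?_⟩
  set Q := n / (4 * (S + 1)) with hQ
  have hQ1 : 1 ≤ Q := by
    rw [hQ, Nat.le_div_iff_mul_le (by omega)]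
    omega
  have hQ2 : 4 * (S + 1) * Q ≤ n := Nat.mul_div_le n _
  have hQ3 : n < 4 * (S + 1) * (Q + 1) := Nat.lt_mul_div_succ n (by omega)
  have hQ4 : n ≤ 8 * (S + 1) * Q := by nlinarith
  obtain ⟨i, hi, h⟩ := hn1 n (by omega) f hfT hfd hf (fun l => c l • bt (θ l) (ρ l)) (by
    intro l
    obtain ⟨q, h1, h2, p, hp⟩ := beatty (θ l) (ρ l) Q hQ1
    refine ⟨q, h1, (Nat.mul_le_mul_left _ h2).trans hQ2, c l * p, ?_⟩
    refine (nz_of_imp ?_).trans ((hp ((C + 1) * n)).trans (le_trans ?_ (le_max_right k R)))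
    · intro t _ h3 h4
      apply h3
      simp only [Pi.smul_apply, smul_eq_mul, bt]
      push_cast at h4 ⊢
      have : c l * ((⌊θ l * ((q : ℝ) + t) + ρ l⌋ : ℝ) - ⌊θ l * (t : ℝ) + ρ l⌋ - p) = 0 := by
        rw [h4, mul_zero]
      linarith
    · rw [hR]
      apply Nat.add_le_add_right
      have hN2 : (C + 1) * n ≤ (C + 1) * (8 * (S + 1)) * Q := by
        calc (C + 1) * n ≤ (C + 1) * (8 * (S + 1) * Q) := Nat.mul_le_mul_left _ hQ4
          _ = (C + 1) * (8 * (S + 1)) * Q := by ring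
      exact Nat.div_le_of_le_mul (hN2.trans (le_of_eq (mul_comm _ _)))) W hW
  exact ⟨i, hi, fun w hw => (le_max_left k R).trans_lt (h w hw)⟩

end Pool.Agent.Y413.DG
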