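import Pool.Agent.Y413.DG.Dig
import Pool.Agent.Y413.DG.Act

set_option autoImplicit false

/-!
Sparse integer relations between bounded digit sequences of algebraic numbers.
-/

namespace Pool.Agent.Y413.DG

open Polynomial Finset Filter Topology

/-- `x = ∑ d_t / b ^ (t + 1)` -/
def Exp (b : ℕ) (x : ℝ) (d : ℕ → ℤ) : Prop := HasSum (fun t => (d t : ℝ) / (b : ℝ) ^ (t + 1)) x

section tail

variable {b : ℕ} {x : ℝ} {d : ℕ → ℤ} {B : ℕ}

lemma Exp.shift (hb : 2 ≤ b) (h : Exp b x d) : Exp b (b * x - d 0) (fun t => d (t + 1)) := by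
  unfold Exp at h ⊢
  have hb0 : (b : ℝ) ≠ 0 := by exact_mod_cast (by omega : b ≠ 0)
  have h1 := (h.mul_left (b : ℝ))
  have h2 := (hasSum_nat_add_iff' 1).2 h1
  rw [Finset.sum_range_one] at h2
  have h3 : (fun t : ℕ => (d (t + 1) : ℝ) / (b : ℝ) ^ (t + 1)) =
      fun n : ℕ => (b : ℝ) * ((d (n + 1) : ℝ) / (b : ℝ) ^ (n + 1 + 1)) := by
    funext t
    rw [pow_succ (b : ℝ) (t + 1)]
    field_simp
  have h4 : (b : ℝ) * x - d 0 = b * x - b * ((d 0 : ℝ) / (b : ℝ) ^ (0 + 1)) := by
    rw [zero_add, pow_one]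
    field_simp
  rw [h3, h4]
  exact h2

lemma Exp.bound (hb : 2 ≤ b) (h : Exp b x d) (hd : ∀ t, |d t| ≤ B) : |x| ≤ B := by
  unfold Exp at h
  have hb0 : (0 : ℝ) < b := by exact_mod_cast (by omega : 0 < b)
  have hb2 : (2 : ℝ) ≤ b := by exact_mod_cast hb
  have hg : HasSum (fun t : ℕ => (B : ℝ) / 2 / (2 : ℝ) ^ t) B := hasSum_geometric_two' B
  have hle : ∀ t, |(d t : ℝ) / (b : ℝ) ^ (t + 1)| ≤ (B : ℝ) / 2 / (2 : ℝ) ^ t := by
    intro t
    rw [abs_div, abs_of_pos (pow_pos hb0 (t + 1)), div_div, ← pow_succ']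
    apply div_le_div₀
    · positivity
    · exact_mod_cast hd t
    · positivity
    · exact pow_le_pow_left₀ (by norm_num) hb2 _
  rw [abs_le]
  constructor
  · have := hasSum_le (fun t => (abs_le.1 (hle t)).1) hg.neg h
    exact this
  · exact hasSum_le (fun t => (abs_le.1 (hle t)).2) h hg

/-- the tail after `j` places -/
lemma Exp.tail (hb : 2 ≤ b) (h : Exp b x d) (j : ℕ) :
    ∃ (I : ℤ) (y : ℝ), x * (b : ℝ) ^ j = I + y ∧ Exp b y (fun t => d (j + t)) := by
  induction j with
  | zero =>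
    refine ⟨0, x, by simp, ?_⟩
    simpa using h
  | succ j ih =>
    obtain ⟨I, y, h1, h2⟩ := ih
    refine ⟨b * I + d j, b * y - d j, ?_, ?_⟩
    · rw [pow_succ, ← mul_assoc, h1]
      push_cast
      ring
    · have h3 := h2.shift hb
      rw [add_zero] at h3
      convert h3 using 2
      congr 1
      omega

lemma Exp.split (hb : 2 ≤ b) (h : Exp b x d) (m : ℕ) :
    ∃ y : ℝ, Exp b y (fun t => d (m + t)) ∧
      x = ∑ t ∈ range m, (d t : ℝ) * (b : ℝ) ^ (-((t : ℤ) + 1)) + (b : ℝ) ^ (-(m : ℤ)) * y := by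
  have hb0 : (b : ℝ) ≠ 0 := by exact_mod_cast (by omega : b ≠ 0)
  induction m with
  | zero => exact ⟨x, by simpa using h, by simp⟩
  | succ m ih =>
    obtain ⟨y, h1, h2⟩ := ih
    refine ⟨b * y - d m, ?_, ?_⟩
    · have h3 := h1.shift hb
      rw [add_zero] at h3
      convert h3 using 2
      congr 1
      omega
    · rw [Finset.sum_range_succ, h2]
      have h3 : (b : ℝ) ^ (-(m : ℤ)) = b * (b : ℝ) ^ (-((m : ℤ) + 1)) := by
        have h4 : (-(m : ℤ)) = 1 + -((m : ℤ) + 1) := by ring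
        rw [h4, zpow_add₀ hb0, zpow_one]
      rw [h3]
      push_cast
      ring

end tail

lemma pow_two_gt (a : ℕ) : (a : ℝ) < 2 ^ a := by
  exact_mod_cast (Nat.lt_two_pow_self (n := a))

/-- there is no long window on which a sparse polynomial not vanishing at `b` kills the digits -/
theorem ok_poly (b : ℕ) (hb : 2 ≤ b) {r : ℕ} (α : Fin r → ℝ) (hα : ∀ k, IsAlgebraic ℚ (α k))
    (hind : Indep α) (d : Fin r → ℕ → ℤ) (B : ℕ) (hB : ∀ s t, |d s t| ≤ B)
    (hd : ∀ s, Exp b (α s) (d s)) (T B' C : ℕ) : ∃ m0 : ℕ, ∀ m, m0 ≤ m → ∀ f : Fin r → ℤ[X],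
      (∀ s, (f s).support.card ≤ T) → (∀ s j, |(f s).coeff j| ≤ B') →
      (∀ s, (f s).natDegree ≤ C * m) → (∃ s, (f s).eval (b : ℤ) ≠ 0) →
      (∀ t, t < m → ∑ s, act (f s) (d s) t = 0) → False := by
  classical
  have hb0 : (0 : ℝ) < b := by exact_mod_cast (by omega : 0 < b)
  have hb1 : (1 : ℝ) < b := by exact_mod_cast (by omega : 1 < b)
  have hb2 : (2 : ℝ) ≤ b := by exact_mod_cast hb
  obtain ⟨N0, hN0⟩ := ok' b hb α hα hind (r * T) B' 0 (1 / (2 * (C + 1))) (by positivity)
  set H : ℕ := r * T * (B' * B) with hH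
  refine ⟨max N0 (2 * H), fun m hm f hfT hfB hfd hfb hrel => ?_⟩
  have hm1 : N0 ≤ (C + 1) * m := (le_max_left _ _).trans (hm.trans (Nat.le_mul_of_pos_left m (by omega)))
  have hm2 : 2 * H ≤ m := (le_max_right _ _).trans hm
  choose I y hI hy using fun s j => (hd s).tail hb j
  choose z hz hz' using fun s j => (hy s j).split hb m
  have hzb : ∀ s j, |z s j| ≤ B := fun s j => (hz s j).bound hb (fun t => hB _ _)
  have key := hN0 ((C + 1) * m) hm1 ((s : Fin r) × (f s).support) (by
      rw [Fintype.card_sigma]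
      calc ∑ s, Fintype.card (f s).support ≤ ∑ _s : Fin r, T := by
            apply Finset.sum_le_sum
            intro s _
            rw [Fintype.card_coe]
            exact hfT s
        _ = r * T := by simp)
    (fun p => ((p.2 : ℕ) : ℤ)) (fun p => Pi.single p.1 ((f p.1).coeff p.2)) (fun _ => 0)
    (∑ s, ∑ j ∈ (f s).support, (f s).coeff j * I s j) ?_ ?_ ?_ ?_ ?_
  · have hsingle : ∀ (s : Fin r) (c : ℤ), ∑ k, ((Pi.single s c : Fin r → ℤ) k : ℝ) * α k = c * α s := by
      intro s c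
      rw [Finset.sum_eq_single s]
      · rw [Pi.single_eq_same]
      · intro k _ hk
        rw [Pi.single_eq_of_ne hk, Int.cast_zero, zero_mul]
      · intro h; exact absurd (mem_univ s) h
    have h1 : ∑ p : (s : Fin r) × (f s).support,
        (∑ k, ((Pi.single p.1 ((f p.1).coeff p.2) : Fin r → ℤ) k : ℝ) * α k + ((0 : ℤ) : ℝ)) *
          (b : ℝ) ^ (((p.2 : ℕ) : ℤ)) - ((∑ s, ∑ j ∈ (f s).support, (f s).coeff j * I s j : ℤ) : ℝ) =
        (b : ℝ) ^ (-(m : ℤ)) * ∑ s, ∑ j ∈ (f s).support, ((f s).coeff j : ℝ) * z s j := by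
      have h2 : ∀ s, ∀ j, ((f s).coeff j : ℝ) * α s * (b : ℝ) ^ j =
          (f s).coeff j * I s j + (∑ t ∈ range m, ((f s).coeff j : ℝ) * (d s (j + t)) *
            (b : ℝ) ^ (-((t : ℤ) + 1)) + (b : ℝ) ^ (-(m : ℤ)) * (((f s).coeff j : ℝ) * z s j)) := by
        intro s j
        rw [mul_assoc, hI s j, hz' s j, mul_add, mul_add, Finset.mul_sum]
        congr 2
        · apply Finset.sum_congr rfl
          intro t _
          ring
        · ring
      rw [Fintype.sum_sigma]
      simp only [hsingle, Int.cast_zero, add_zero, zpow_natCast]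
      have h3 : ∀ s, ∑ j : (f s).support, ((f s).coeff j : ℝ) * α s * (b : ℝ) ^ (j : ℕ) =
          ∑ j ∈ (f s).support, ((f s).coeff j : ℝ) * α s * (b : ℝ) ^ j := fun s =>
        Finset.sum_coe_sort (f s).support (fun j => ((f s).coeff j : ℝ) * α s * (b : ℝ) ^ j)
      rw [Finset.sum_congr rfl (fun s _ => h3 s)]
      simp only [h2, Finset.sum_add_distrib]
      have h4 : ∑ s, ∑ j ∈ (f s).support, ∑ t ∈ range m, ((f s).coeff j : ℝ) * (d s (j + t)) *
            (b : ℝ) ^ (-((t : ℤ) + 1)) = 0 := by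
        have h5 : ∀ s, ∑ j ∈ (f s).support, ∑ t ∈ range m, ((f s).coeff j : ℝ) * (d s (j + t)) *
            (b : ℝ) ^ (-((t : ℤ) + 1)) =
            ∑ t ∈ range m, ((act (f s) (d s) t : ℤ) : ℝ) * (b : ℝ) ^ (-((t : ℤ) + 1)) := by
          intro s
          rw [Finset.sum_comm]
          apply Finset.sum_congr rfl
          intro t _
          rw [act_apply, ← Finset.sum_mul]
          push_cast
          rfl
        simp only [h5]
        rw [Finset.sum_comm]
        apply Finset.sum_eq_zero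
        intro t ht
        rw [← Finset.sum_mul, ← Int.cast_sum, hrel t (mem_range.1 ht), Int.cast_zero, zero_mul]
      rw [h4]
      simp only [← Finset.mul_sum]
      push_cast
      ring
    rw [h1, abs_mul, abs_of_pos (zpow_pos hb0 _)] at key
    have h2 : |∑ s, ∑ j ∈ (f s).support, ((f s).coeff j : ℝ) * z s j| ≤ H := by
      calc |∑ s, ∑ j ∈ (f s).support, ((f s).coeff j : ℝ) * z s j|
          ≤ ∑ s, ∑ j ∈ (f s).support, (B' * B : ℝ) := by
            refine (Finset.abs_sum_le_sum_abs _ _).trans (Finset.sum_le_sum fun s _ => ?_)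
            refine (Finset.abs_sum_le_sum_abs _ _).trans (Finset.sum_le_sum fun j _ => ?_)
            rw [abs_mul]
            apply mul_le_mul _ (hzb s j) (abs_nonneg _) (by positivity)
            exact_mod_cast hfB s j
        _ ≤ ∑ _s : Fin r, (T * (B' * B) : ℝ) := by
            apply Finset.sum_le_sum
            intro s _
            rw [Finset.sum_const, nsmul_eq_mul]
            apply mul_le_mul_of_nonneg_right _ (by positivity)
            exact_mod_cast hfT s
        _ = H := by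
            rw [Finset.sum_const, Finset.card_univ, Fintype.card_fin, nsmul_eq_mul, hH]
            push_cast
            ring
    have h3 : (H : ℝ) ≤ (b : ℝ) ^ ((m : ℝ) / 2) := by
      calc (H : ℝ) ≤ 2 ^ H := (pow_two_gt H).le
        _ ≤ (b : ℝ) ^ H := pow_le_pow_left₀ (by norm_num) hb2 _
        _ = (b : ℝ) ^ (H : ℝ) := (Real.rpow_natCast _ _).symm
        _ ≤ (b : ℝ) ^ ((m : ℝ) / 2) := by
            apply Real.rpow_le_rpow_of_exponent_le hb1.le
            have : (2 * H : ℝ) ≤ m := by exact_mod_cast hm2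
            linarith
    have h4 : (b : ℝ) ^ (-(1 / (2 * ((C : ℝ) + 1)) * (((C + 1) * m : ℕ) : ℝ))) =
        (b : ℝ) ^ (-((m : ℝ) / 2)) := by
      congr 2
      push_cast
      have : ((C : ℝ) + 1) ≠ 0 := by positivity
      field_simp
    rw [h4] at key
    have h5 : (b : ℝ) ^ (-(m : ℤ)) * |∑ s, ∑ j ∈ (f s).support, ((f s).coeff j : ℝ) * z s j| ≤
        (b : ℝ) ^ (-((m : ℝ) / 2)) := by
      calc _ ≤ (b : ℝ) ^ (-(m : ℤ)) * (b : ℝ) ^ ((m : ℝ) / 2) :=
            mul_le_mul_of_nonneg_left (h2.trans h3) (zpow_pos hb0 _).le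
        _ = (b : ℝ) ^ (-((m : ℝ) / 2)) := by
            rw [← Real.rpow_intCast, ← Real.rpow_add hb0]
            congr 1
            push_cast
            ring
    linarith
  · rintro ⟨s, j⟩
    have h1 := Polynomial.le_natDegree_of_mem_supp _ j.2
    have h2 := hfd s
    change |((j : ℕ) : ℤ)| ≤ _
    rw [abs_of_nonneg (by positivity)]
    have h3 : (j : ℕ) ≤ (C + 1) * m := by
      calc (j : ℕ) ≤ C * m := h1.trans h2
        _ ≤ (C + 1) * m := Nat.mul_le_mul_right m (by omega)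
    exact_mod_cast h3
  · rintro ⟨s, j⟩ k
    change |(Pi.single s ((f s).coeff j) : Fin r → ℤ) k| ≤ _
    by_cases h : k = s
    · rw [h, Pi.single_eq_same]; exact hfB s j
    · rw [Pi.single_eq_of_ne h, abs_zero]; positivity
  · intro p; simp
  · intro p _
    simp
  · obtain ⟨s, hs⟩ := hfb
    refine ⟨s, ?_⟩
    rw [Fintype.sum_sigma, Finset.sum_eq_single s]
    · intro h
      apply hs
      rw [Polynomial.eval_eq_sum, Polynomial.sum]
      have h1 : ∑ j : (f s).support, ((Pi.single s ((f s).coeff j) : Fin r → ℤ) s : ℝ) *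
          (b : ℝ) ^ (((j : ℕ) : ℤ)) = ∑ j ∈ (f s).support, ((f s).coeff j : ℝ) * (b : ℝ) ^ j := by
        rw [← Finset.sum_coe_sort (f s).support (fun j => ((f s).coeff j : ℝ) * (b : ℝ) ^ j)]
        apply Finset.sum_congr rfl
        intro j _
        rw [Pi.single_eq_same, zpow_natCast]
      have h2 := h1.symm.trans h
      exact_mod_cast h2
    · intro s' _ hs'
      apply Finset.sum_eq_zero
      intro j _
      change ((Pi.single s' ((f s').coeff j) : Fin r → ℤ) s : ℝ) * _ = 0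
      rw [Pi.single_eq_of_ne (Ne.symm hs'), Int.cast_zero, zero_mul]
    · intro h; exact absurd (mem_univ s) h

end Pool.Agent.Y413.DG
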