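import Pool.Agent.Y413.DG.Sub

set_option autoImplicit false

/-!
Sums of few powers of an integer `b` whose coefficients are small integer combinations of `1` and
real algebraic numbers `α_1, …, α_r` are not close to integers.
-/

namespace Pool.Agent.Y413.DG

open Finset Filter Topology

/-- the largest power dominates -/
theorem dom (b : ℕ) (hb : 2 ≤ b) {T : ℕ} (γ : Fin T → ℝ) : ∃ K : ℕ, ∃ c : ℝ, 0 < c ∧
    ∀ n : Fin T → ℤ, (∀ i j, i ≠ j → (K : ℤ) < |n i - n j|) → ∀ i, γ i ≠ 0 →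
      c * (b : ℝ) ^ (n i) ≤ |∑ j, γ j * (b : ℝ) ^ (n j)| := by
  classical
  have hb0 : (0 : ℝ) < b := by exact_mod_cast (by omega : 0 < b)
  have hb2 : (2 : ℝ) ≤ b := by exact_mod_cast hb
  have hb1 : (1 : ℝ) ≤ b := by linarith
  by_cases hne : ∃ i, γ i ≠ 0
  swap
  · push Not at hne
    exact ⟨0, 1, one_pos, fun n _ i hi => absurd (hne i) hi⟩
  obtain ⟨i1, hi1⟩ := hne
  set s := univ.filter (fun i => γ i ≠ 0) with hs
  have hsne : s.Nonempty := ⟨i1, by rw [hs, mem_filter]; exact ⟨mem_univ _, hi1⟩⟩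
  obtain ⟨im, him, hmin⟩ := s.exists_min_image (fun i => |γ i|) hsne
  have him0 : γ im ≠ 0 := by rw [hs, mem_filter] at him; exact him.2
  set m := |γ im| with hm
  have hm0 : 0 < m := abs_pos.2 him0
  set S := ∑ j, |γ j| with hS
  have hS0 : 0 ≤ S := Finset.sum_nonneg fun _ _ => abs_nonneg _
  obtain ⟨K, hK⟩ := pow_unbounded_of_one_lt (2 * S / m) (one_lt_two : (1 : ℝ) < 2)
  have hK' : S ≤ m / 2 * (b : ℝ) ^ K := by
    rw [div_lt_iff₀ hm0] at hK
    have h1 : (2 : ℝ) ^ K ≤ (b : ℝ) ^ K := pow_le_pow_left₀ (by norm_num) hb2 K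
    have h2 := mul_le_mul_of_nonneg_left h1 hm0.le
    linarith
  refine ⟨K, m / 2, by positivity, fun n hn i hi => ?_⟩
  obtain ⟨i0, hi0, hmax⟩ := s.exists_max_image n hsne
  have hi00 : γ i0 ≠ 0 := by rw [hs, mem_filter] at hi0; exact hi0.2
  have hle : n i ≤ n i0 := hmax i (by rw [hs, mem_filter]; exact ⟨mem_univ _, hi⟩)
  have h1 : |∑ j ∈ univ.erase i0, γ j * (b : ℝ) ^ (n j)| ≤ m / 2 * (b : ℝ) ^ (n i0) := by
    calc |∑ j ∈ univ.erase i0, γ j * (b : ℝ) ^ (n j)|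
        ≤ ∑ j ∈ univ.erase i0, |γ j * (b : ℝ) ^ (n j)| := Finset.abs_sum_le_sum_abs _ _
      _ ≤ ∑ j ∈ univ.erase i0, |γ j| * ((b : ℝ) ^ (n i0) * (b : ℝ) ^ (-(K : ℤ))) := by
          apply Finset.sum_le_sum
          intro j hj
          rw [abs_mul, abs_of_pos (zpow_pos hb0 _)]
          by_cases hj0 : γ j = 0
          · rw [hj0, abs_zero, zero_mul, zero_mul]
          · apply mul_le_mul_of_nonneg_left _ (abs_nonneg _)
            rw [← zpow_add₀ hb0.ne']
            apply zpow_le_zpow_right₀ hb1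
            have h2 := hmax j (by rw [hs, mem_filter]; exact ⟨mem_univ _, hj0⟩)
            have h3 := hn i0 j (Finset.ne_of_mem_erase hj).symm
            rw [abs_of_nonneg (by omega)] at h3
            omega
      _ ≤ ∑ j, |γ j| * ((b : ℝ) ^ (n i0) * (b : ℝ) ^ (-(K : ℤ))) := by
          apply Finset.sum_le_sum_of_subset_of_nonneg (Finset.erase_subset _ _)
          intro j _ _
          positivity
      _ = S * ((b : ℝ) ^ (n i0) * (b : ℝ) ^ (-(K : ℤ))) := by rw [hS, Finset.sum_mul]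
      _ ≤ m / 2 * (b : ℝ) ^ K * ((b : ℝ) ^ (n i0) * (b : ℝ) ^ (-(K : ℤ))) := by
          apply mul_le_mul_of_nonneg_right hK' (by positivity)
      _ = m / 2 * (b : ℝ) ^ (n i0) := by
          rw [zpow_neg, zpow_natCast]
          field_simp
  have h2 : |γ i0| * (b : ℝ) ^ (n i0) - m / 2 * (b : ℝ) ^ (n i0) ≤
      |∑ j, γ j * (b : ℝ) ^ (n j)| := by
    rw [← Finset.add_sum_erase univ _ (mem_univ i0)]
    have h3 := abs_sub_abs_le_abs_sub (γ i0 * (b : ℝ) ^ (n i0))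
      (-∑ j ∈ univ.erase i0, γ j * (b : ℝ) ^ (n j))
    rw [abs_mul, abs_of_pos (zpow_pos hb0 (n i0)), abs_neg, sub_neg_eq_add] at h3
    linarith
  have h3 : m ≤ |γ i0| := hmin i0 hi0
  have h4 : (b : ℝ) ^ (n i) ≤ (b : ℝ) ^ (n i0) := zpow_le_zpow_right₀ hb1 hle
  have h5 : 0 < (b : ℝ) ^ (n i0) := zpow_pos hb0 _
  nlinarith

/-- the statement for sums of `T` powers -/
def Ok (b : ℕ) {r : ℕ} (α : Fin r → ℝ) (T : ℕ) : Prop :=
  ∀ (B D : ℕ) (ε : ℝ), 0 < ε → ∃ N0 : ℕ, ∀ N, N0 ≤ N →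
    ∀ (n : Fin T → ℤ) (x : Fin T → Fin r → ℤ) (y : Fin T → ℤ) (P : ℤ),
      (∀ i, |n i| ≤ N) → (∀ i k, |x i k| ≤ B) → (∀ i, |y i| ≤ B) →
      (∀ i, x i ≠ 0 → -(D : ℤ) ≤ n i) → (∃ k, ∑ i, (x i k : ℝ) * (b : ℝ) ^ (n i) ≠ 0) →
      (b : ℝ) ^ (-(ε * N)) < |∑ i, (∑ k, x i k * α k + y i) * (b : ℝ) ^ (n i) - P|

lemma isAlg_sum {r : ℕ} (α : Fin r → ℝ) (hα : ∀ k, IsAlgebraic ℚ (α k)) (x : Fin r → ℤ) (y : ℤ) :
    IsAlgebraic ℚ (∑ k, (x k : ℝ) * α k + y) := by
  have h1 : ∀ z : ℝ, z ∈ algebraicClosure ℚ ℝ ↔ IsAlgebraic ℚ z := fun z =>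
    mem_algebraicClosure_iff
  rw [← h1]
  apply add_mem
  · apply sum_mem
    intro k _
    exact mul_mem (intCast_mem _ _) ((h1 _).2 (hα k))
  · exact intCast_mem _ _

/-- two close exponents are merged -/
lemma merge (b : ℕ) (hb : 2 ≤ b) {r : ℕ} (α : Fin r → ℝ) (T : ℕ) (ih : Ok b α T) (B D K : ℕ)
    (ε : ℝ) (hε : 0 < ε) : ∃ N0 : ℕ, ∀ N, N0 ≤ N →
    ∀ (n : Fin (T + 1) → ℤ) (x : Fin (T + 1) → Fin r → ℤ) (y : Fin (T + 1) → ℤ) (P : ℤ),
      (∀ i, |n i| ≤ N) → (∀ i k, |x i k| ≤ B) → (∀ i, |y i| ≤ B) →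
      (∀ i, x i ≠ 0 → -(D : ℤ) ≤ n i) → (∃ k, ∑ i, (x i k : ℝ) * (b : ℝ) ^ (n i) ≠ 0) →
      (∃ i j, i ≠ j ∧ n j ≤ n i ∧ n i ≤ n j + K) →
      (b : ℝ) ^ (-(ε * N)) < |∑ i, (∑ k, x i k * α k + y i) * (b : ℝ) ^ (n i) - P| := by
  classical
  have hb0 : (0 : ℝ) < b := by exact_mod_cast (by omega : 0 < b)
  obtain ⟨N0, hN0⟩ := ih (b ^ K * B + B) (D + K) ε hε
  refine ⟨N0, fun N hN n x y P h1 h2 h3 h4 h5 h6 => ?_⟩
  obtain ⟨i, j, hij, hji, hijK⟩ := h6
  obtain ⟨i', hi'⟩ := Fin.exists_succAbove_eq hij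
  set m := (n i - n j).toNat with hm
  have hm' : (m : ℤ) = n i - n j := Int.toNat_of_nonneg (by omega)
  have hmK : m ≤ K := by omega
  have hpow : (b : ℝ) ^ (n i) = (b : ℝ) ^ m * (b : ℝ) ^ (n j) := by
    rw [← zpow_natCast, hm', ← zpow_add₀ hb0.ne']
    congr 1
    ring
  have hbm : b ^ m ≤ b ^ K := Nat.pow_le_pow_right (by omega) hmK
  let n' : Fin T → ℤ := fun l => if l = i' then n j else n (j.succAbove l)
  let x' : Fin T → Fin r → ℤ := fun l k =>
    if l = i' then (b : ℤ) ^ m * x i k + x j k else x (j.succAbove l) k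
  let y' : Fin T → ℤ := fun l => if l = i' then (b : ℤ) ^ m * y i + y j else y (j.succAbove l)
  have hsum : ∀ f : Fin (T + 1) → ℝ, ∀ g : Fin T → ℝ,
      (g i' = f i + f j) → (∀ l, l ≠ i' → g l = f (j.succAbove l)) → ∑ l, g l = ∑ l, f l := by
    intro f g hg1 hg2
    rw [Fin.sum_univ_succAbove f j]
    have h7 : ∀ l ∈ (univ : Finset (Fin T)), g l = f (j.succAbove l) + if l = i' then f j else 0 := by
      intro l _
      by_cases hl : l = i'
      · rw [if_pos hl, hl, hg1, hi']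
      · rw [if_neg hl, add_zero, hg2 l hl]
    rw [Finset.sum_congr rfl h7, Finset.sum_add_distrib, Finset.sum_ite_eq' univ i']
    simp only [mem_univ, if_true]
    ring
  have habs : ∀ u v : ℤ, |u| ≤ B → |v| ≤ B → |(b : ℤ) ^ m * u + v| ≤ ((b ^ K * B + B : ℕ) : ℤ) := by
    intro u v hu hv
    have h7 : (b : ℤ) ^ m ≤ (b : ℤ) ^ K := by exact_mod_cast hbm
    have h8 : (0 : ℤ) ≤ (b : ℤ) ^ m := by positivity
    calc |(b : ℤ) ^ m * u + v| ≤ |(b : ℤ) ^ m * u| + |v| := abs_add_le _ _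
      _ = (b : ℤ) ^ m * |u| + |v| := by rw [abs_mul, abs_of_nonneg h8]
      _ ≤ (b : ℤ) ^ K * B + B := by
          have h9 := mul_le_mul h7 hu (abs_nonneg u) (by positivity)
          linarith
      _ = ((b ^ K * B + B : ℕ) : ℤ) := by push_cast; ring
  have hB' : (B : ℤ) ≤ ((b ^ K * B + B : ℕ) : ℤ) := by
    push_cast
    have : (0 : ℤ) ≤ (b : ℤ) ^ K * B := by positivity
    linarith
  have key := hN0 N hN n' x' y' P ?_ ?_ ?_ ?_ ?_
  · have h7 : ∑ l, (∑ k, (x' l k : ℝ) * α k + y' l) * (b : ℝ) ^ (n' l) =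
        ∑ l, (∑ k, (x l k : ℝ) * α k + y l) * (b : ℝ) ^ (n l) := by
      apply hsum
      · simp only [n', x', y', if_true]
        push_cast
        rw [hpow]
        have h8 : ∀ k ∈ (univ : Finset (Fin r)), ((b : ℝ) ^ m * (x i k : ℝ) + x j k) * α k =
            (b : ℝ) ^ m * ((x i k : ℝ) * α k) + x j k * α k := fun k _ => by ring
        rw [Finset.sum_congr rfl h8, Finset.sum_add_distrib, ← Finset.mul_sum]
        ring
      · intro l hl
        simp only [n', x', y', if_neg hl]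
    rw [h7] at key
    exact key
  · intro l
    by_cases hl : l = i'
    · simp only [n', if_pos hl]; exact h1 j
    · simp only [n', if_neg hl]; exact h1 _
  · intro l k
    by_cases hl : l = i'
    · simp only [x', if_pos hl]; exact habs _ _ (h2 i k) (h2 j k)
    · simp only [x', if_neg hl]; exact (h2 _ k).trans hB'
  · intro l
    by_cases hl : l = i'
    · simp only [y', if_pos hl]; exact habs _ _ (h3 i) (h3 j)
    · simp only [y', if_neg hl]; exact (h3 _).trans hB'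
  · intro l hl0
    by_cases hl : l = i'
    · simp only [n', if_pos hl]
      by_cases hxj : x j = 0
      · have hxi : x i ≠ 0 := by
          intro hxi
          apply hl0
          funext k
          simp only [x', if_pos hl, hxi, hxj, Pi.zero_apply, mul_zero, add_zero]
        have := h4 i hxi
        push_cast
        omega
      · have := h4 j hxj
        push_cast
        omega
    · have h7 : x (j.succAbove l) ≠ 0 := by
        intro h8
        apply hl0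
        funext k
        simp only [x', if_neg hl, h8]
      have := h4 _ h7
      simp only [n', if_neg hl]
      push_cast
      omega
  · obtain ⟨k, hk⟩ := h5
    refine ⟨k, ?_⟩
    rw [hsum (fun l => (x l k : ℝ) * (b : ℝ) ^ (n l)) (fun l => (x' l k : ℝ) * (b : ℝ) ^ (n' l))]
    · exact hk
    · simp only [n', x', if_true]
      push_cast
      rw [hpow]
      ring
    · intro l hl
      simp only [n', x', if_neg hl]

/-- zero coefficients are removed -/
lemma remove (b : ℕ) {r : ℕ} (α : Fin r → ℝ) (T : ℕ) (ih : Ok b α T) (B D : ℕ)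
    (ε : ℝ) (hε : 0 < ε) : ∃ N0 : ℕ, ∀ N, N0 ≤ N →
    ∀ (n : Fin (T + 1) → ℤ) (x : Fin (T + 1) → Fin r → ℤ) (y : Fin (T + 1) → ℤ) (P : ℤ),
      (∀ i, |n i| ≤ N) → (∀ i k, |x i k| ≤ B) → (∀ i, |y i| ≤ B) →
      (∀ i, x i ≠ 0 → -(D : ℤ) ≤ n i) → (∃ k, ∑ i, (x i k : ℝ) * (b : ℝ) ^ (n i) ≠ 0) →
      (∃ i, x i = 0 ∧ y i = 0) →
      (b : ℝ) ^ (-(ε * N)) < |∑ i, (∑ k, x i k * α k + y i) * (b : ℝ) ^ (n i) - P| := by
  obtain ⟨N0, hN0⟩ := ih B D ε hε
  refine ⟨N0, fun N hN n x y P h1 h2 h3 h4 h5 h6 => ?_⟩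
  obtain ⟨i, hxi, hyi⟩ := h6
  have key := hN0 N hN (fun l => n (i.succAbove l)) (fun l => x (i.succAbove l))
    (fun l => y (i.succAbove l)) P (fun l => h1 _) (fun l => h2 _) (fun l => h3 _)
    (fun l => h4 _) ?_
  · rw [Fin.sum_univ_succAbove _ i, hxi, hyi]
    simpa using key
  · obtain ⟨k, hk⟩ := h5
    refine ⟨k, ?_⟩
    rw [Fin.sum_univ_succAbove _ i, hxi] at hk
    simpa using hk

/-- `1, α_1, …, α_r` are linearly independent over the rational numbers -/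
def Indep {r : ℕ} (α : Fin r → ℝ) : Prop :=
  ∀ (x : Fin r → ℤ) (y : ℤ), ∑ k, (x k : ℝ) * α k + y = 0 → x = 0

theorem step (b : ℕ) (hb : 2 ≤ b) {r : ℕ} (α : Fin r → ℝ) (hα : ∀ k, IsAlgebraic ℚ (α k))
    (hind : Indep α) (T : ℕ) (ih : Ok b α T) : Ok b α (T + 1) := by
  classical
  have hb0 : (0 : ℝ) < b := by exact_mod_cast (by omega : 0 < b)
  have hb1 : (1 : ℝ) < b := by exact_mod_cast (by omega : 1 < b)
  intro B D ε hε
  by_contra hcon
  push Not at hcon
  choose N hN n x y P h1 h2 h3 h4 h5 h6 using hcon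
  have hNtop : Tendsto N atTop atTop := tendsto_atTop_mono hN tendsto_id
  -- constant coefficients
  let g : ℕ → (Fin (T + 1) → Fin r → Set.Icc (-(B : ℤ)) B) × (Fin (T + 1) → Set.Icc (-(B : ℤ)) B) :=
    fun t => (fun i k => ⟨x t i k, Set.mem_Icc.2 (abs_le.1 (h2 t i k))⟩,
      fun i => ⟨y t i, Set.mem_Icc.2 (abs_le.1 (h3 t i))⟩)
  obtain ⟨⟨xs, ys⟩, hg⟩ := Finite.exists_infinite_fiber g
  have hfr : ∃ᶠ t in atTop, g t = (xs, ys) := by
    rw [Nat.frequently_atTop_iff_infinite]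
    exact Set.infinite_coe_iff.1 hg
  obtain ⟨φ, hφ, hφg⟩ := Filter.extraction_of_frequently_atTop hfr
  have hx : ∀ s i k, x (φ s) i k = xs i k := by
    intro s i k
    have h7 := congrArg (fun z => ((z.1 i k : Set.Icc (-(B : ℤ)) B) : ℤ)) (hφg s)
    exact h7
  have hy : ∀ s i, y (φ s) i = ys i := by
    intro s i
    have h7 := congrArg (fun z => ((z.2 i : Set.Icc (-(B : ℤ)) B) : ℤ)) (hφg s)
    exact h7
  set δ : Fin (T + 1) → ℝ := fun i => ∑ k, ((xs i k : ℤ) : ℝ) * α k + ((ys i : ℤ) : ℝ) with hδ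
  have hδs : ∀ s i, ∑ k, (x (φ s) i k : ℝ) * α k + y (φ s) i = δ i := by
    intro s i
    simp only [hx, hy, hδ]
  have hφtop : Tendsto φ atTop atTop := hφ.tendsto_atTop
  obtain ⟨z0, z, hz, hfz⟩ := sub_seq b hb (T + 1) (by omega) δ
    (fun i => isAlg_sum α hα (fun k => xs i k) (ys i)) ε hε (fun s => N (φ s))
    (hNtop.comp hφtop) (fun s => n (φ s)) (fun s i => h1 _ i) (fun s => P (φ s)) (by
      intro s
      have h7 := h6 (φ s)
      simp only [hδs] at h7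
      exact h7)
  -- gaps
  have hgap : ∀ K : ℕ, ∀ᶠ s in atTop, ∀ i j, i ≠ j → (K : ℤ) < |n (φ s) i - n (φ s) j| := by
    intro K
    obtain ⟨N1, hN1⟩ := merge b hb α T ih B D K ε hε
    filter_upwards [hφtop.eventually (eventually_ge_atTop N1)] with s hs i j hij
    by_contra hle
    push Not at hle
    have h7 := abs_le.1 hle
    have h8 := hN1 (N (φ s)) (hs.trans (hN _)) (n (φ s)) (x (φ s)) (y (φ s)) (P (φ s)) (h1 _)
      (h2 _) (h3 _) (h4 _) (h5 _) ?_
    · exact absurd h8 (not_lt.2 (h6 _))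
    · rcases le_total (n (φ s) j) (n (φ s) i) with h9 | h9
      · exact ⟨i, j, hij, h9, by omega⟩
      · exact ⟨j, i, hij.symm, h9, by omega⟩
  by_cases hz0 : z0 = 0
  · have hzne : z ≠ 0 := by
      rcases hz with h | h
      · exact absurd hz0 h
      · exact h
    obtain ⟨i, hi⟩ : ∃ i, z i ≠ 0 := by
      by_contra hall
      push Not at hall
      exact hzne (funext hall)
    obtain ⟨K, c, hc, hdom⟩ := dom b hb (fun i => (z i : ℝ))
    obtain ⟨s, hs1, hs2⟩ := (hfz.and_eventually (hgap K)).exists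
    have h7 := hdom (n (φ s)) hs2 i (by exact_mod_cast hi)
    rw [hz0] at hs1
    simp only [Int.cast_zero, zero_mul, zero_add] at hs1
    rw [hs1, abs_zero] at h7
    have h8 : 0 < c * (b : ℝ) ^ (n (φ s) i) := mul_pos hc (zpow_pos hb0 _)
    linarith
  · have hz0' : (z0 : ℝ) ≠ 0 := by exact_mod_cast hz0
    obtain ⟨K, c, hc, hdom⟩ := dom b hb (fun i => δ i + z i / z0)
    have hsmall : ∀ᶠ s in atTop, (b : ℝ) ^ (-(ε * N (φ s))) < c * (b : ℝ) ^ (-(D : ℤ)) := by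
      have h7 : Tendsto (fun s => (ε * (N (φ s) : ℝ))) atTop atTop :=
        (tendsto_natCast_atTop_atTop.comp (hNtop.comp hφtop)).const_mul_atTop hε
      have h8 : Tendsto (fun s => (b : ℝ) ^ (-(ε * (N (φ s) : ℝ)))) atTop (𝓝 0) := by
        have h9 := (tendsto_rpow_atBot_of_base_gt_one (b : ℝ) hb1).comp
          (tendsto_neg_atTop_atBot.comp h7)
        exact h9
      exact h8.eventually (gt_mem_nhds (mul_pos hc (zpow_pos hb0 _)))
    obtain ⟨s, hs1, hs2, hs3⟩ := (hfz.and_eventually ((hgap K).and hsmall)).exists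
    -- the relation
    have hP : (P (φ s) : ℝ) = -∑ i, (z i : ℝ) / z0 * (b : ℝ) ^ (n (φ s) i) := by
      have h7 : ∑ i, (z i : ℝ) / z0 * (b : ℝ) ^ (n (φ s) i) =
          (∑ i, (z i : ℝ) * (b : ℝ) ^ (n (φ s) i)) / z0 := by
        rw [Finset.sum_div]
        apply Finset.sum_congr rfl
        intro i _
        ring
      rw [h7]
      field_simp
      linarith
    have h6' := h6 (φ s)
    simp only [hδs] at h6'
    have hsum : ∑ i, δ i * (b : ℝ) ^ (n (φ s) i) - P (φ s) =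
        ∑ i, (δ i + z i / z0) * (b : ℝ) ^ (n (φ s) i) := by
      rw [hP, sub_neg_eq_add, ← Finset.sum_add_distrib]
      apply Finset.sum_congr rfl
      intro i _
      ring
    rw [hsum] at h6'
    obtain ⟨k, hk⟩ := h5 (φ s)
    obtain ⟨i, hi⟩ : ∃ i, (fun k => ((xs i k : ℤ))) ≠ 0 := by
      by_contra hall
      push Not at hall
      apply hk
      apply Finset.sum_eq_zero
      intro i _
      have h7 := congrFun (hall i) k
      simp only [Pi.zero_apply] at h7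
      rw [hx, h7, Int.cast_zero, zero_mul]
    have hγ : δ i + z i / z0 ≠ 0 := by
      intro h7
      have h8 : ∑ k, ((z0 * (xs i k : ℤ) : ℤ) : ℝ) * α k + ((z0 * (ys i : ℤ) + z i : ℤ) : ℝ) = 0 := by
        have h9 : (z0 : ℝ) * (δ i + z i / z0) = 0 := by rw [h7, mul_zero]
        rw [mul_add, mul_div_cancel₀ _ hz0', hδ] at h9
        push_cast
        have h10 : ∀ k ∈ (univ : Finset (Fin r)), (z0 : ℝ) * ((xs i k : ℤ) : ℝ) * α k =
            (z0 : ℝ) * (((xs i k : ℤ) : ℝ) * α k) := fun k _ => by ring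
        rw [Finset.sum_congr rfl h10, ← Finset.mul_sum]
        linear_combination h9
      have h9 := hind _ _ h8
      apply hi
      funext k
      have h10 := congrFun h9 k
      simp only [Pi.zero_apply] at h10 ⊢
      exact (mul_eq_zero.1 h10).resolve_left hz0
    have h7 := hdom (n (φ s)) hs2 i hγ
    have h8 : -(D : ℤ) ≤ n (φ s) i := by
      apply h4 (φ s) i
      intro h9
      apply hi
      funext k
      have h10 := congrFun h9 k
      rw [hx] at h10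
      exact h10
    have h9 : (b : ℝ) ^ (-(D : ℤ)) ≤ (b : ℝ) ^ (n (φ s) i) := zpow_le_zpow_right₀ hb1.le h8
    have h10 := mul_le_mul_of_nonneg_left h9 hc.le
    linarith

/-- the main estimate -/
theorem ok (b : ℕ) (hb : 2 ≤ b) {r : ℕ} (α : Fin r → ℝ) (hα : ∀ k, IsAlgebraic ℚ (α k))
    (hind : Indep α) : ∀ T, Ok b α T := by
  intro T
  induction T with
  | zero =>
    intro B D ε _
    refine ⟨0, fun N _ n x y P _ _ _ _ h5 => ?_⟩
    obtain ⟨k, hk⟩ := h5
    simp at hk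
  | succ T ih => exact step b hb α hα hind T ih

end Pool.Agent.Y413.DG
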