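import Pool.Agent.TH286.GT.All

set_option autoImplicit false

/-!
The subspace theorem (library `Pool.Agent.TH286.GT`) for sums of powers of one integer with real
algebraic coefficients that are close to integers.
-/

namespace Pool.Agent.Y413.DG

open Finset Filter Topology Pool.Agent.TH286.GT

/-- the lattice matrix -/
def Bd {n : ℕ} (b : ℕ) (k : Fin n → ℕ) : Matrix (Fin n) (Fin n) ℤ :=
  Matrix.diagonal fun l => (b : ℤ) ^ k l

/-- the numbers `lam` -/
def lamb (O : Type) [CommRing O] (b n : ℕ) (v l : Fin n) : O := if v = l then (b : O) else 1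

lemma bet_lamb (O : Type) [CommRing O] {b n : ℕ} (k : Fin n → ℕ) (l : Fin n) :
    bet (lamb O b n) k l = (b : O) ^ k l := by
  unfold bet lamb
  rw [Finset.prod_eq_single l]
  · rw [if_pos rfl]
  · intro v _ hv
    rw [if_neg hv, one_pow]
  · intro h
    exact absurd (Finset.mem_univ l) h

lemma det_Bd {n : ℕ} (b : ℕ) (k : Fin n → ℕ) : (Bd b k).det = ∏ l, (b : ℤ) ^ k l := by
  unfold Bd
  rw [Matrix.det_diagonal]

lemma lat_Bd (O : Type) [CommRing O] {b n : ℕ} (hb : 2 ≤ b) (k : Fin n → ℕ) :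
    Lat (1 : Matrix (Fin n) (Fin n) O) (bet (lamb O b n) k) (Bd b k) := by
  refine ⟨?_, ?_⟩
  · rw [det_Bd]
    exact Finset.prod_ne_zero_iff.2 fun l _ => pow_ne_zero _ (by exact_mod_cast (by omega : b ≠ 0))
  · rw [one_mul, mul_one]
    unfold Bd
    rw [Matrix.diagonal_map (map_zero _)]
    congr 1
    funext l
    rw [bet_lamb]
    simp

/-- the matrix of the forms -/
def M0 {O : Type} [CommRing O] {T : ℕ} (a : O) (d : Fin T → O) :
    Matrix (Fin (T + 1)) (Fin (T + 1)) O :=
  fun i j => Fin.cases (motive := fun _ => O) (Fin.cases (motive := fun _ => O) (-a) d j)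
    (fun i' => Fin.cases (motive := fun _ => O) 0 (fun j' => if i' = j' then 1 else 0) j) i

@[simp] lemma M0_00 {O : Type} [CommRing O] {T : ℕ} (a : O) (d : Fin T → O) :
    M0 a d 0 0 = -a := rfl
@[simp] lemma M0_0s {O : Type} [CommRing O] {T : ℕ} (a : O) (d : Fin T → O) (j : Fin T) :
    M0 a d 0 j.succ = d j := rfl
@[simp] lemma M0_s0 {O : Type} [CommRing O] {T : ℕ} (a : O) (d : Fin T → O) (i : Fin T) :
    M0 a d i.succ 0 = 0 := rfl
@[simp] lemma M0_ss {O : Type} [CommRing O] {T : ℕ} (a : O) (d : Fin T → O) (i j : Fin T) :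
    M0 a d i.succ j.succ = if i = j then 1 else 0 := rfl

lemma det_M0 {O : Type} [CommRing O] {T : ℕ} (a : O) (d : Fin T → O) : (M0 a d).det = -a := by
  rw [Matrix.det_of_isUpperTriangular, Fin.prod_univ_succ]
  · simp
  · intro i j hij
    simp only [id] at hij
    induction i using Fin.cases with
    | zero => exact absurd hij (Fin.not_lt_zero _)
    | succ i =>
      induction j using Fin.cases with
      | zero => rfl
      | succ j =>
        rw [M0_ss, if_neg]
        rintro rfl
        exact lt_irrefl _ hij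

theorem sub_seq (b : ℕ) (hb : 2 ≤ b) (T : ℕ) (hT : 1 ≤ T) (δ : Fin T → ℝ)
    (hδ : ∀ i, IsAlgebraic ℚ (δ i)) (ε : ℝ) (hε : 0 < ε) (N : ℕ → ℕ) (hN : Tendsto N atTop atTop)
    (n : ℕ → Fin T → ℤ) (hn : ∀ t i, |n t i| ≤ N t) (P : ℕ → ℤ)
    (hP : ∀ t, |∑ i, δ i * (b : ℝ) ^ (n t i) - P t| ≤ (b : ℝ) ^ (-(ε * N t))) :
    ∃ (y0 : ℤ) (y : Fin T → ℤ), (y0 ≠ 0 ∨ y ≠ 0) ∧
      ∃ᶠ t in atTop, (y0 : ℝ) * P t + ∑ i, (y i : ℝ) * (b : ℝ) ^ (n t i) = 0 := by
  have hb0 : (0 : ℝ) < b := by exact_mod_cast (by omega : 0 < b)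
  have hb1 : (1 : ℝ) < b := by exact_mod_cast (by omega : 1 < b)
  set Lb : ℝ := Real.log b with hLb
  have hLb0 : 0 < Lb := Real.log_pos hb1
  -- the number field
  set F : IntermediateField ℚ ℝ := IntermediateField.adjoin ℚ (Set.range δ) with hFdef
  have hF : FiniteDimensional ℚ F := by
    apply IntermediateField.finiteDimensional_adjoin
    rintro x ⟨i, rfl⟩
    exact (hδ i).isIntegral
  have : NumberField F := { to_charZero := inferInstance, to_finiteDimensional := hF }
  let c : Fin T → F := fun i => ⟨δ i, IntermediateField.subset_adjoin ℚ _ ⟨i, rfl⟩⟩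
  obtain ⟨Nn, hNn⟩ := IsLocalization.exist_integer_multiples_of_finite
    (nonZeroDivisors (NumberField.RingOfIntegers F)) c
  have hN0 : (Nn : NumberField.RingOfIntegers F) ≠ 0 := nonZeroDivisors.ne_zero Nn.2
  have hN' : ∀ i, ∃ M : NumberField.RingOfIntegers F,
      algebraMap (NumberField.RingOfIntegers F) F M
        = algebraMap (NumberField.RingOfIntegers F) F (Nn : NumberField.RingOfIntegers F)
          * c i := by
    intro i
    obtain ⟨M, hM⟩ := hNn i
    refine ⟨M, ?_⟩
    rw [hM, Algebra.smul_def]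
  choose d hd using hN'
  have hinj : Function.Injective (algebraMap (NumberField.RingOfIntegers F) F) :=
    IsFractionRing.injective _ _
  set ψ : NumberField.RingOfIntegers F →+* ℝ :=
    (algebraMap F ℝ).comp (algebraMap (NumberField.RingOfIntegers F) F) with hψ
  set φ : NumberField.RingOfIntegers F →+* ℂ := Complex.ofRealHom.comp ψ with hφ
  set ν : ℝ := ψ (Nn : NumberField.RingOfIntegers F) with hν
  have hν0 : ν ≠ 0 := by
    intro h
    apply hN0
    apply hinj
    rw [map_zero]
    apply (algebraMap F ℝ).injective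
    rw [map_zero]
    exact h
  have hνp : 0 < |ν| := abs_pos.2 hν0
  set lν : ℝ := Real.log |ν| with hlν
  have hψd : ∀ i, ψ (d i) = ν * δ i := by
    intro i
    have h1 := congrArg (algebraMap F ℝ) (hd i)
    rw [map_mul] at h1
    exact h1
  -- the tail
  obtain ⟨t0, ht0⟩ : ∃ t0, ∀ t, t0 ≤ t → (1 : ℝ) ≤ N t ∧ lν ≤ ε * Lb / 2 * N t := by
    have h1 : Tendsto (fun t => (N t : ℝ)) atTop atTop :=
      tendsto_natCast_atTop_atTop.comp hN
    have h2 : ∀ᶠ t in atTop, (1 : ℝ) ≤ N t := h1.eventually (eventually_ge_atTop 1)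
    have h3 : ∀ᶠ t in atTop, lν / (ε * Lb / 2) ≤ N t :=
      h1.eventually (eventually_ge_atTop _)
    obtain ⟨t0, ht0⟩ := eventually_atTop.1 (h2.and h3)
    refine ⟨t0, fun t ht => ⟨(ht0 t ht).1, ?_⟩⟩
    have h4 := (ht0 t ht).2
    rw [div_le_iff₀ (by positivity)] at h4
    linarith
  -- the data
  let k : ℕ → Fin (T + 1) → ℕ := fun t =>
    Fin.cons (N (t + t0)) (fun i => (n (t + t0) i + N (t + t0)).toNat)
  have hk0 : ∀ t, k t 0 = N (t + t0) := fun t => rfl
  have hks : ∀ t i, k t (Fin.succ i) = (n (t + t0) i + N (t + t0)).toNat := fun t i => rfl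
  have hks' : ∀ t i, ((k t (Fin.succ i) : ℕ) : ℤ) = n (t + t0) i + N (t + t0) := by
    intro t i
    rw [hks, Int.toNat_of_nonneg]
    have := abs_le.1 (hn (t + t0) i)
    linarith [this.1]
  have hkle : ∀ t l, (k t l : ℝ) ≤ 2 * N (t + t0) := by
    intro t l
    induction l using Fin.cases with
    | zero =>
      rw [hk0]
      have : (0 : ℝ) ≤ N (t + t0) := Nat.cast_nonneg _
      linarith
    | succ i =>
      have h1 := hks' t i
      have h2 := (abs_le.1 (hn (t + t0) i)).2
      have h3 : ((k t (Fin.succ i) : ℕ) : ℤ) ≤ 2 * N (t + t0) := by linarith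
      exact_mod_cast h3
  let x : ℕ → Fin (T + 1) → ℤ := fun t =>
    Fin.cons (P (t + t0) * (b : ℤ) ^ k t 0) (fun i => (b : ℤ) ^ k t (Fin.succ i))
  have hx0 : ∀ t, x t 0 = P (t + t0) * (b : ℤ) ^ k t 0 := fun t => rfl
  have hxs : ∀ t i, x t (Fin.succ i) = (b : ℤ) ^ k t (Fin.succ i) := fun t i => rfl
  let A : ℕ → Fin (T + 1) → ℝ := fun t =>
    Fin.cons (|ν| * (b : ℝ) ^ (k t 0) * (b : ℝ) ^ (-(ε * N (t + t0))))
      (fun i => (b : ℝ) ^ k t (Fin.succ i))
  have hA0 : ∀ t, A t 0 = |ν| * (b : ℝ) ^ (k t 0) * (b : ℝ) ^ (-(ε * N (t + t0))) := fun t => rfl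
  have hAs : ∀ t i, A t (Fin.succ i) = (b : ℝ) ^ k t (Fin.succ i) := fun t i => rfl
  have hpw : ∀ t i, (b : ℝ) ^ (k t (Fin.succ i)) = (b : ℝ) ^ (n (t + t0) i) * (b : ℝ) ^ (k t 0) := by
    intro t i
    rw [← zpow_natCast, hks' t i, zpow_add₀ hb0.ne', hk0, zpow_natCast]
  set γ : ℝ := ε * Lb / 2 with hγ
  have hγ0 : 0 < γ := by positivity
  set C : ℝ := 1 + 2 * (T + 1) * Lb + |lν| + ε * Lb with hC
  have hC1 : 1 ≤ C := by
    have : 0 ≤ 2 * ((T : ℝ) + 1) * Lb := by positivity
    have := abs_nonneg (lν)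
    have : 0 ≤ ε * Lb := by positivity
    linarith
  have hlogdet : ∀ t, Real.log |((Bd b (k t)).det : ℝ)| = ∑ l, (k t l : ℝ) * Lb := by
    intro t
    rw [det_Bd]
    push_cast
    rw [Finset.abs_prod, Real.log_prod]
    · apply Finset.sum_congr rfl
      intro l _
      rw [abs_of_pos (pow_pos hb0 _), Real.log_pow]
    · intro l _
      exact (abs_pos.2 (pow_pos hb0 _).ne').ne'
  have hlogA0 : ∀ t, Real.log (A t 0) = lν + k t 0 * Lb - ε * N (t + t0) * Lb := by
    intro t
    rw [hA0, Real.log_mul (by positivity) (by positivity), Real.log_mul (by positivity) (by positivity),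
      Real.log_pow, Real.log_rpow hb0]
    ring
  have hlogAs : ∀ t i, Real.log (A t (Fin.succ i)) = k t (Fin.succ i) * Lb := by
    intro t i
    rw [hAs, Real.log_pow]
  have hsize : ∀ t, SizeO C γ ((N (t + t0) : ℕ) : ℝ) (Bd b (k t)) (A t) := by
    intro t
    obtain ⟨h1, h2⟩ := ht0 (t + t0) (Nat.le_add_left _ _)
    have hNN : (0 : ℝ) ≤ N (t + t0) := by linarith
    have e1 : 0 ≤ 2 * ((T : ℝ) + 1) * Lb * N (t + t0) := by positivity
    have e2 : 0 ≤ |lν| * N (t + t0) := by positivity
    have e3 : 0 ≤ ε * Lb * N (t + t0) := by positivity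
    have e4 : |lν| ≤ |lν| * N (t + t0) :=
      le_mul_of_one_le_right (abs_nonneg _) h1
    have e5 : 0 ≤ (T : ℝ) * Lb * N (t + t0) := by positivity
    have e6 : 0 ≤ Lb * N (t + t0) := by positivity
    refine ⟨?_, ?_, ?_, ?_⟩
    · rw [hlogdet]
      calc ∑ l, (k t l : ℝ) * Lb ≤ ∑ _l : Fin (T + 1), 2 * N (t + t0) * Lb := by
            apply Finset.sum_le_sum
            intro l _
            exact mul_le_mul_of_nonneg_right (hkle t l) hLb0.le
        _ = 2 * (T + 1) * Lb * N (t + t0) := by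
            rw [Finset.sum_const, Finset.card_univ, Fintype.card_fin, nsmul_eq_mul]
            push_cast
            ring
        _ ≤ C * N (t + t0) := by
            rw [hC]
            nlinarith
    · intro l
      induction l using Fin.cases with
      | zero => rw [hA0]; positivity
      | succ i => rw [hAs]; positivity
    · intro l
      induction l using Fin.cases with
      | zero =>
        rw [hlogA0, hk0, abs_le]
        have e7 := neg_abs_le (lν)
        have e8 := le_abs_self (lν)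
        rw [hC]
        constructor
        · nlinarith
        · nlinarith
      | succ i =>
        rw [hlogAs, abs_of_nonneg (by positivity)]
        have e7 := mul_le_mul_of_nonneg_right (hkle t i.succ) hLb0.le
        rw [hC]
        nlinarith
    · rw [hlogdet, Fin.sum_univ_succ, Fin.sum_univ_succ, hlogA0]
      simp only [hlogAs]
      rw [hγ]
      nlinarith
  have hsol : ∀ t, SolO φ (M0 (Nn : NumberField.RingOfIntegers F) d) (Bd b (k t)) (A t) (x t) := by
    intro t
    refine ⟨?_, ?_⟩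
    · intro l
      have hre : ∀ z, ‖φ z‖ = |ψ z| := by
        intro z
        rw [hφ, RingHom.comp_apply, Complex.ofRealHom_eq_coe, Complex.norm_real, Real.norm_eq_abs]
      rw [hre, map_sum]
      induction l using Fin.cases with
      | zero =>
        rw [Fin.sum_univ_succ, hA0]
        simp only [M0_00, M0_0s, map_mul, map_neg, map_intCast, hψd, hx0, hxs]
        push_cast
        have h1 : -ψ (Nn : NumberField.RingOfIntegers F) * ((P (t + t0) : ℝ) * (b : ℝ) ^ k t 0) +
            ∑ i, ν * δ i * (b : ℝ) ^ k t (Fin.succ i) =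
            ν * (b : ℝ) ^ k t 0 * (∑ i, δ i * (b : ℝ) ^ (n (t + t0) i) - P (t + t0)) := by
          rw [mul_sub, Finset.mul_sum, ← hν]
          have h2 : ∀ i ∈ (univ : Finset (Fin T)), ν * δ i * (b : ℝ) ^ k t (Fin.succ i) =
              ν * (b : ℝ) ^ k t 0 * (δ i * (b : ℝ) ^ (n (t + t0) i)) := by
            intro i _
            rw [hpw]; ring
          rw [Finset.sum_congr rfl h2]
          ring
        rw [h1, abs_mul, abs_mul, abs_of_pos (pow_pos hb0 (k t 0))]
        exact mul_le_mul_of_nonneg_left (hP (t + t0)) (by positivity)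
      | succ i =>
        rw [Fin.sum_univ_succ, hAs]
        simp only [M0_s0, M0_ss, zero_mul, map_zero, zero_add, map_mul, map_intCast, hxs]
        rw [Finset.sum_eq_single i]
        · rw [if_pos rfl, map_one, one_mul]
          push_cast
          rw [abs_of_pos (pow_pos hb0 _)]
        · intro j _ hj
          rw [if_neg (Ne.symm hj), map_zero, zero_mul]
        · intro h; exact absurd (Finset.mem_univ i) h
    · refine ⟨Fin.cons (P (t + t0)) (fun _ => 1), ?_⟩
      funext l
      unfold Bd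
      rw [Matrix.mulVec_diagonal]
      induction l using Fin.cases with
      | zero => rw [hx0, Fin.cons_zero, mul_comm]
      | succ i => rw [hxs, Fin.cons_succ, mul_one]
  have hdata : DataO φ (M0 (Nn : NumberField.RingOfIntegers F) d)
      (1 : Matrix (Fin (T + 1)) (Fin (T + 1)) (NumberField.RingOfIntegers F))
      (lamb (NumberField.RingOfIntegers F) b (T + 1)) := by
    refine ⟨?_, ?_, ?_, ?_⟩
    · rw [det_M0]
      exact neg_ne_zero.2 hN0
    · intro i j
      rw [hφ, RingHom.comp_apply, Complex.ofRealHom_eq_coe, Complex.ofReal_im]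
    · rw [Matrix.det_one]; exact one_ne_zero
    · intro v l
      unfold lamb
      split_ifs
      · exact_mod_cast (by omega : b ≠ 0)
      · exact one_ne_zero
  have hNt : Tendsto (fun t => ((N (t + t0) : ℕ) : ℝ)) atTop atTop :=
    tendsto_natCast_atTop_atTop.comp (hN.comp (tendsto_add_atTop_nat t0))
  have hxne : ∀ t, x t ≠ 0 := by
    intro t h
    have h1 := congrFun h (Fin.succ ⟨0, hT⟩)
    rw [hxs] at h1
    exact absurd h1 (pow_ne_zero _ (by exact_mod_cast (by omega : b ≠ 0)))
  obtain ⟨y, hy0, hy⟩ := subspaceO (NumberField.RingOfIntegers F) φ (T + 1) (T + 1) (by omega)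
    (M0 (Nn : NumberField.RingOfIntegers F) d) 1 (lamb (NumberField.RingOfIntegers F) b (T + 1))
    hdata C γ hC1 hγ0 (fun t => ((N (t + t0) : ℕ) : ℝ)) hNt k (fun t => Bd b (k t))
    (fun t => lat_Bd _ hb (k t)) A hsize x hxne hsol
  refine ⟨y 0, fun i => y (Fin.succ i), ?_, ?_⟩
  · by_contra hcon
    push Not at hcon
    apply hy0
    funext l
    induction l using Fin.cases with
    | zero => exact hcon.1
    | succ i => exact congrFun hcon.2 i
  · refine (tendsto_add_atTop_nat t0).frequently (hy.mono fun t ht => ?_)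
    rw [Fin.sum_univ_succ] at ht
    have h1 : ((y 0 * x t 0 + ∑ i : Fin T, y (Fin.succ i) * x t (Fin.succ i) : ℤ) : ℝ) = 0 := by
      rw [ht]; simp
    push_cast at h1
    simp only [hx0, hxs] at h1
    push_cast at h1
    have h2 : ∀ i ∈ (univ : Finset (Fin T)), (y (Fin.succ i) : ℝ) * (b : ℝ) ^ k t (Fin.succ i) =
        (b : ℝ) ^ k t 0 * ((y (Fin.succ i) : ℝ) * (b : ℝ) ^ (n (t + t0) i)) := by
      intro i _
      rw [hpw]; ring
    rw [Finset.sum_congr rfl h2, ← Finset.mul_sum] at h1
    have h3 : (b : ℝ) ^ k t 0 * ((y 0 : ℝ) * P (t + t0) +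
        ∑ i, (y (Fin.succ i) : ℝ) * (b : ℝ) ^ (n (t + t0) i)) = 0 := by
      rw [← h1]; ring
    exact (mul_eq_zero.1 h3).resolve_left (pow_pos hb0 _).ne'

end Pool.Agent.Y413.DG
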